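import Pool.Agent.TH212.PS.P13

set_option autoImplicit false

/-! Divisor correlations with few exceptional shifts: the parameters and the exponential sums. -/

namespace Pool.Agent.Q148.DS
open Finset
open Pool.Agent.H807R2.Dav
open Pool.Agent.TH212.DV
open Pool.Agent.TH212.PS

/-- the exponent of `Y` -/
noncomputable def dl (t : ℕ) (ν : ℝ) : ℝ := 1 / ((t : ℝ) + 2) - ν

/-- the parameters -/
structure Pm (t : ℕ) (ν : ℝ) (N Y : ℕ) : Prop where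
  two : 2 ≤ Y
  low : (Y : ℝ) ≤ (N : ℝ) ^ dl t ν
  high : (N : ℝ) ^ dl t ν ≤ 2 * Y

lemma dl_pos (t : ℕ) (ν : ℝ) (hν : ν ≤ 1 / (4 * (t + 2))) : 0 < dl t ν ∧ 3 / (4 * ((t : ℝ) + 2)) ≤ dl t ν := by
  have ht : (0 : ℝ) < (t : ℝ) + 2 := by positivity
  have h1 : 1 / ((t : ℝ) + 2) = 4 * (1 / (4 * ((t : ℝ) + 2))) := by field_simp
  have h2 : 3 / (4 * ((t : ℝ) + 2)) = 3 * (1 / (4 * ((t : ℝ) + 2))) := by ring
  have h3 : 0 < 1 / (4 * ((t : ℝ) + 2)) := by positivity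
  unfold dl
  rw [h1, h2]
  constructor <;> linarith

lemma dl_le (t : ℕ) (ν : ℝ) (hν : 0 < ν) : dl t ν ≤ 1 / 2 := by
  have : 1 / ((t : ℝ) + 2) ≤ 1 / 2 := by
    apply div_le_div_of_nonneg_left (by norm_num) (by norm_num)
    have : (0 : ℝ) ≤ t := Nat.cast_nonneg t
    linarith
  unfold dl
  linarith

lemma dl_mul (t : ℕ) (ν : ℝ) : dl t ν * ((t : ℝ) + 2) = 1 - ((t : ℝ) + 2) * ν := by
  unfold dl
  have ht : (t : ℝ) + 2 ≠ 0 := by positivity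
  field_simp

lemma exists_Y (t : ℕ) (ν : ℝ) (hν : ν ≤ 1 / (4 * (t + 2))) : ∃ N₀ : ℕ, ∀ N : ℕ, N₀ ≤ N → ∃ Y, Pm t ν N Y := by
  obtain ⟨hd, _⟩ := dl_pos t ν hν
  obtain ⟨n1, h1⟩ := ev_pow 0 3 (dl t ν) hd
  refine ⟨n1 + 1, fun N hN => ?_⟩
  have a1 := h1 N (by omega)
  rw [pow_zero, mul_one] at a1
  have e1 := Nat.floor_le (by linarith : 0 ≤ (N : ℝ) ^ dl t ν)
  have e2 := Nat.lt_floor_add_one ((N : ℝ) ^ dl t ν)
  refine ⟨⌊(N : ℝ) ^ dl t ν⌋₊, ?_, e1, by linarith⟩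
  exact Nat.le_floor (by push_cast; linarith)

lemma pm_bounds (t : ℕ) (ν : ℝ) (hν0 : 0 < ν) (hν : ν ≤ 1 / (4 * (t + 2))) : ∃ N₀ : ℕ, ∀ N : ℕ, N₀ ≤ N → ∀ Y : ℕ, Pm t ν N Y →
    ((2 * N / Y : ℕ) : ℝ) ≤ 4 * (N : ℝ) ^ (1 - dl t ν) ∧ Y ≤ 2 * N / Y ∧ 2 * N / Y ≤ 2 * N ∧
    (Y : ℝ) ^ (t + 2) ≤ (N : ℝ) ^ (1 - ((t : ℝ) + 2) * ν) ∧ (N : ℝ) ^ (1 / 2 : ℝ) ≤ 2 ^ (t + 2) * (Y : ℝ) ^ (t + 2) ∧
    2 * N ≤ (Y + 1) ^ (4 * (t + 2)) := by
  obtain ⟨hd, hd2⟩ := dl_pos t ν hν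
  have hd3 := dl_le t ν hν0
  have hdm := dl_mul t ν
  have ht0 : (0 : ℝ) ≤ t := Nat.cast_nonneg t
  refine ⟨2, fun N hN Y hp => ?_⟩
  have hN1 : 1 ≤ N := by omega
  have hN0 : (0 : ℝ) < N := by exact_mod_cast hN1
  have hNr : (1 : ℝ) ≤ N := by exact_mod_cast hN1
  have hYpos : 0 < Y := by have := hp.two; omega
  have hY0 : (0 : ℝ) < Y := by exact_mod_cast hYpos
  have hNd : 0 < (N : ℝ) ^ dl t ν := Real.rpow_pos_of_pos hN0 _
  have hνt : ((t : ℝ) + 2) * ν ≤ 1 / 4 := by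
    have h2 : ((t : ℝ) + 2) * ν ≤ ((t : ℝ) + 2) * (1 / (4 * ((t : ℝ) + 2))) := mul_le_mul_of_nonneg_left hν (by positivity)
    have h3 : ((t : ℝ) + 2) * (1 / (4 * ((t : ℝ) + 2))) = 1 / 4 := by field_simp
    linarith
  have e1 : (N : ℝ) ^ (1 - dl t ν) = N / (N : ℝ) ^ dl t ν := by rw [Real.rpow_sub hN0, Real.rpow_one]
  refine ⟨?_, ?_, Nat.div_le_self _ _, ?_, ?_, ?_⟩
  · have h3 : ((2 * N / Y : ℕ) : ℝ) ≤ ((2 * N : ℕ) : ℝ) / Y := Nat.cast_div_le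
    refine h3.trans ?_
    rw [e1, div_le_iff₀ hY0, mul_comm (4 * _), ← mul_div_assoc, ← mul_div_assoc, le_div_iff₀ hNd]
    push_cast
    nlinarith [mul_le_mul_of_nonneg_left hp.high hN0.le]
  · rw [Nat.le_div_iff_mul_le hYpos]
    have h3 : (Y : ℝ) * Y ≤ 2 * N := by
      calc (Y : ℝ) * Y ≤ (N : ℝ) ^ dl t ν * (N : ℝ) ^ dl t ν := mul_le_mul hp.low hp.low hY0.le hNd.le
        _ = (N : ℝ) ^ (dl t ν + dl t ν) := by rw [Real.rpow_add hN0]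
        _ ≤ (N : ℝ) ^ (1 : ℝ) := Real.rpow_le_rpow_of_exponent_le hNr (by linarith)
        _ = N := Real.rpow_one _
        _ ≤ 2 * N := by linarith
    exact_mod_cast h3
  · calc (Y : ℝ) ^ (t + 2) ≤ ((N : ℝ) ^ dl t ν) ^ (t + 2) := pow_le_pow_left₀ hY0.le hp.low _
      _ = (N : ℝ) ^ (1 - ((t : ℝ) + 2) * ν) := by
          rw [← Real.rpow_natCast ((N : ℝ) ^ dl t ν), ← Real.rpow_mul hN0.le]
          congr 1
          push_cast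
          linarith
  · rw [← mul_pow]
    calc (N : ℝ) ^ (1 / 2 : ℝ) ≤ (N : ℝ) ^ (1 - ((t : ℝ) + 2) * ν) := Real.rpow_le_rpow_of_exponent_le hNr (by linarith)
      _ = ((N : ℝ) ^ dl t ν) ^ (t + 2) := by
          rw [← Real.rpow_natCast ((N : ℝ) ^ dl t ν), ← Real.rpow_mul hN0.le]
          congr 1
          push_cast
          linarith
      _ ≤ (2 * (Y : ℝ)) ^ (t + 2) := pow_le_pow_left₀ hNd.le hp.high _
  · have h1 : (N : ℝ) ^ dl t ν < (Y : ℝ) + 1 + Y := by have := hp.high; linarith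
    have h2 : (2 : ℝ) * Y ≤ ((Y : ℝ) + 1) ^ 2 := by nlinarith
    have h3 : (N : ℝ) ^ dl t ν ≤ ((Y : ℝ) + 1) ^ 2 := hp.high.trans h2
    have h4 : (N : ℝ) ^ (1 - ((t : ℝ) + 2) * ν) ≤ (((Y : ℝ) + 1) ^ 2) ^ (t + 2) := by
      calc (N : ℝ) ^ (1 - ((t : ℝ) + 2) * ν) = ((N : ℝ) ^ dl t ν) ^ (t + 2) := by
            rw [← Real.rpow_natCast ((N : ℝ) ^ dl t ν), ← Real.rpow_mul hN0.le]
            congr 1
            push_cast
            linarith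
        _ ≤ _ := pow_le_pow_left₀ hNd.le h3 _
    have h5 : (N : ℝ) ^ (1 / 2 : ℝ) * (N : ℝ) ^ (1 / 4 : ℝ) ≤ (((Y : ℝ) + 1) ^ 2) ^ (t + 2) := by
      rw [← Real.rpow_add hN0]
      refine le_trans (Real.rpow_le_rpow_of_exponent_le hNr (by linarith)) h4
    have h6 : (N : ℝ) ^ (3 / 2 : ℝ) ≤ ((Y : ℝ) + 1) ^ (4 * (t + 2)) := by
      calc (N : ℝ) ^ (3 / 2 : ℝ) = ((N : ℝ) ^ (1 / 2 : ℝ) * (N : ℝ) ^ (1 / 4 : ℝ)) ^ 2 := by
            rw [← Real.rpow_add hN0, ← Real.rpow_natCast, ← Real.rpow_mul hN0.le]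
            norm_num
        _ ≤ ((((Y : ℝ) + 1) ^ 2) ^ (t + 2)) ^ 2 := pow_le_pow_left₀ (by positivity) h5 _
        _ = _ := by rw [← pow_mul, ← pow_mul]; congr 1; ring
    -- `2 N ≤ (Y + 1) ^ (4 (t + 2))`
    rcases Nat.lt_or_ge N 4 with hN4 | hN4
    · have h7 : 3 ^ 4 ≤ (Y + 1) ^ (4 * (t + 2)) := by
        calc 3 ^ 4 ≤ (Y + 1) ^ 4 := Nat.pow_le_pow_left (by have := hp.two; omega) 4
          _ ≤ (Y + 1) ^ (4 * (t + 2)) := Nat.pow_le_pow_right (by omega) (by omega)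
      omega
    · have h7 : (2 : ℝ) * N ≤ (N : ℝ) ^ (3 / 2 : ℝ) := by
        have h8 : (2 : ℝ) ≤ (N : ℝ) ^ (1 / 2 : ℝ) := by
          have h9 : (4 : ℝ) ≤ N := by exact_mod_cast hN4
          calc (2 : ℝ) = (4 : ℝ) ^ (1 / 2 : ℝ) := by
                rw [show (4 : ℝ) = 2 ^ (2 : ℝ) by norm_num, ← Real.rpow_mul (by norm_num)]
                norm_num
            _ ≤ _ := Real.rpow_le_rpow (by norm_num) h9 (by norm_num)
        calc (2 : ℝ) * N ≤ (N : ℝ) ^ (1 / 2 : ℝ) * N := mul_le_mul_of_nonneg_right h8 hN0.le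
          _ = (N : ℝ) ^ (1 / 2 : ℝ) * (N : ℝ) ^ (1 : ℝ) := by rw [Real.rpow_one]
          _ = _ := by rw [← Real.rpow_add hN0]; norm_num
      have h8 := h7.trans h6
      exact_mod_cast h8

/-- the exponential sums -/
theorem sup_bd (t : ℕ) (ν ε : ℝ) (hν0 : 0 < ν) (hν : ν ≤ 1 / (4 * (t + 2))) (hε : 0 < ε) : ∃ N₀ : ℕ, ∀ N : ℕ, N₀ ≤ N →
    ∀ Y : ℕ, Pm t ν N Y → ∀ H : ℕ, H ≤ 2 * N → ∀ α : ℝ,
    ‖∑ n ∈ Icc 1 H, ((FY (WE Y t) Y (2 * N / Y) n - MY (WE Y t) Y (2 * N / Y) Y n : ℝ) : ℂ) * ee ((n : ℝ) * α)‖ ≤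
      (N : ℝ) ^ (1 - dl t ν + ε) := by
  obtain ⟨δ, hδ⟩ : ∃ δ : ℝ, δ = dl t ν := ⟨_, rfl⟩
  obtain ⟨hd, hd2⟩ := dl_pos t ν hν
  have hd3 := dl_le t ν hν0
  rw [← hδ] at hd hd2 hd3
  obtain ⟨η, hη⟩ : ∃ η : ℝ, η = min (ε / 2) 1 := ⟨_, rfl⟩
  have hη0 : 0 < η := by rw [hη]; positivity
  have hη1 : η ≤ 1 := by rw [hη]; exact min_le_right _ _
  have hη2 : η ≤ ε / 2 := by rw [hη]; exact min_le_left _ _
  obtain ⟨C, hC1, hC⟩ := dk_eps (t + 1) η hη0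
  obtain ⟨n0, h0⟩ := pm_bounds t ν hν0 hν
  obtain ⟨n1, h1⟩ := ev_pow (t + 3) ((t + 2) * C * 4 ^ (t + 1) * 7 * (48 + 12 * 16 * 5)) (ε / 2) (by positivity)
  obtain ⟨n2, h2⟩ := ev_log 1
  rw [← hδ]
  refine ⟨n0 + n1 + n2 + 2, fun N hN Y hp H hH α => ?_⟩
  obtain ⟨hD, hzD, hDN, _, _, _⟩ := h0 N (by omega) Y hp
  have a1 := h1 N (by omega)
  have a2 := h2 N (by omega)
  have hN1 : 1 ≤ N := by omega
  have hN0 : (0 : ℝ) < N := by exact_mod_cast hN1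
  have hNr : (1 : ℝ) ≤ N := by exact_mod_cast hN1
  obtain ⟨L, hL⟩ : ∃ L, L = Real.log (N : ℝ) := ⟨_, rfl⟩
  rw [← hL] at a1 a2
  obtain ⟨D, hDd⟩ : ∃ D, D = 2 * N / Y := ⟨_, rfl⟩
  rw [← hDd] at hD hzD hDN ⊢
  rw [← hδ] at hD
  have hY1 : 1 ≤ Y := by have := hp.two; omega
  have hY0 : (0 : ℝ) < Y := by exact_mod_cast hY1
  have hYh := hp.high
  rw [← hδ] at hYh
  have hD0 : (0 : ℝ) < D := by exact_mod_cast (by omega : 0 < D)
  have hlD0 : 0 ≤ Real.log D := Real.log_natCast_nonneg D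
  have hlD : Real.log D ≤ 2 * L := by
    have h3 : (D : ℝ) ≤ (N : ℝ) ^ 2 := by
      have : (D : ℝ) ≤ 2 * N := by exact_mod_cast hDN
      have h4 : (2 : ℝ) ≤ N := by exact_mod_cast (by omega : 2 ≤ N)
      nlinarith
    have h4 := Real.log_le_log hD0 h3
    rw [Real.log_pow] at h4
    rw [hL]
    exact_mod_cast h4
  have hKK : ∀ q, 0 ≤ ∑ a ∈ Rd q, KK H (α + (a : ℝ) / q) := fun q => sum_nonneg fun a _ => KK_nonneg (Nat.cast_nonneg _) _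
  refine (sup_Y (WE Y t) (WE_nonneg Y t) Y D Y H hzD α).trans ?_
  have s1 : ∑ q ∈ Ioc Y D, RR (WE Y t) D q * ∑ a ∈ Rd q, KK H (α + (a : ℝ) / q) ≤
      ∑ q ∈ Ioc Y D, ((t + 2) * C * (1 + 2 * L) ^ (t + 1)) * ((q : ℝ) ^ (η - 1) * ∑ a ∈ Rd q, KK H (α + (a : ℝ) / q)) := by
    apply sum_le_sum
    intro q hq
    rw [mem_Ioc] at hq
    have hq1 : 1 ≤ q := by omega
    have hq0 : (0 : ℝ) < q := by exact_mod_cast hq1
    rw [← mul_assoc]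
    apply mul_le_mul_of_nonneg_right _ (hKK q)
    refine (RR_le (WE Y t) (t + 2) t D q (WE_le Y t) (by positivity) hq1).trans ?_
    have e1 : (dk (t + 1) q : ℝ) / q ≤ C * (q : ℝ) ^ (η - 1) := by
      rw [div_le_iff₀ hq0]
      refine (hC q hq1).trans (le_of_eq ?_)
      rw [mul_assoc, Real.rpow_sub hq0, Real.rpow_one, div_mul_cancel₀ _ hq0.ne']
    calc (t + 2) * ((dk (t + 1) q : ℝ) / q) * (1 + Real.log D) ^ (t + 1)
        ≤ (t + 2) * (C * (q : ℝ) ^ (η - 1)) * (1 + 2 * L) ^ (t + 1) := by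
          apply mul_le_mul (mul_le_mul_of_nonneg_left e1 (by positivity)) _ (by positivity) (by positivity)
          exact pow_le_pow_left₀ (by linarith) (by linarith) _
      _ = _ := by ring
  refine s1.trans ?_
  rw [← mul_sum]
  have s2 := dyadic D Y H hY1 hzD α η hη0.le hη1
  have f1 : (Y : ℝ) ^ (η - 1) ≤ 2 * (N : ℝ) ^ (η - δ) := by
    have g1 : (Y : ℝ) ^ (η - 1) ≤ ((N : ℝ) ^ δ / 2) ^ (η - 1) :=
      Real.rpow_le_rpow_of_nonpos (by positivity) (by linarith) (by linarith)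
    refine g1.trans ?_
    rw [Real.div_rpow (by positivity) (by norm_num), ← Real.rpow_mul hN0.le, div_eq_mul_inv, ← Real.rpow_neg (by norm_num), mul_comm]
    apply mul_le_mul _ _ (by positivity) (by norm_num)
    · calc (2 : ℝ) ^ (-(η - 1)) ≤ (2 : ℝ) ^ (1 : ℝ) := Real.rpow_le_rpow_of_exponent_le (by norm_num) (by linarith)
        _ = 2 := Real.rpow_one 2
    · apply Real.rpow_le_rpow_of_exponent_le hNr
      nlinarith
  have f2 : (D : ℝ) ^ (1 + η) ≤ 16 * (N : ℝ) ^ (1 - δ + η) := by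
    calc (D : ℝ) ^ (1 + η) ≤ (4 * (N : ℝ) ^ (1 - δ)) ^ (1 + η) := Real.rpow_le_rpow hD0.le hD (by linarith)
      _ = (4 : ℝ) ^ (1 + η) * (N : ℝ) ^ ((1 - δ) * (1 + η)) := by
          rw [Real.mul_rpow (by norm_num) (by positivity), ← Real.rpow_mul hN0.le]
      _ ≤ 16 * (N : ℝ) ^ (1 - δ + η) := by
          apply mul_le_mul _ _ (by positivity) (by norm_num)
          · calc (4 : ℝ) ^ (1 + η) ≤ (4 : ℝ) ^ (2 : ℝ) := Real.rpow_le_rpow_of_exponent_le (by norm_num) (by linarith)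
              _ = 16 := by norm_num
          · apply Real.rpow_le_rpow_of_exponent_le hNr
            nlinarith
  have hNκ : 0 < (N : ℝ) ^ (1 - δ + η) := Real.rpow_pos_of_pos hN0 _
  have s3 : (1 + 2 * Real.log D) * (12 * H * (Y : ℝ) ^ (η - 1) + 12 * (D : ℝ) ^ (1 + η) * (2 + Real.log D)) ≤
      (7 * L) * ((48 + 12 * 16 * 5) * L * (N : ℝ) ^ (1 - δ + η)) := by
    have hHN : (H : ℝ) ≤ 2 * N := by exact_mod_cast hH
    have t1 : 12 * (H : ℝ) * (Y : ℝ) ^ (η - 1) ≤ 48 * L * (N : ℝ) ^ (1 - δ + η) := by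
      calc 12 * (H : ℝ) * (Y : ℝ) ^ (η - 1) ≤ 12 * (2 * N) * (2 * (N : ℝ) ^ (η - δ)) := by
            apply mul_le_mul (by linarith) f1 (by positivity) (by positivity)
        _ = 48 * (N : ℝ) ^ (1 - δ + η) := by
            rw [show 1 - δ + η = 1 + (η - δ) by ring, Real.rpow_add hN0, Real.rpow_one]; ring
        _ ≤ 48 * L * (N : ℝ) ^ (1 - δ + η) := by nlinarith
    have t2 : 12 * (D : ℝ) ^ (1 + η) * (2 + Real.log D) ≤ 12 * 16 * 5 * L * (N : ℝ) ^ (1 - δ + η) := by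
      calc 12 * (D : ℝ) ^ (1 + η) * (2 + Real.log D) ≤ 12 * (16 * (N : ℝ) ^ (1 - δ + η)) * (5 * L) := by
            apply mul_le_mul _ (by linarith) (by linarith) (by positivity)
            exact mul_le_mul_of_nonneg_left f2 (by norm_num)
        _ = _ := by ring
    apply mul_le_mul (by linarith) _ (by positivity) (by positivity)
    linarith
  have hKpos : 0 ≤ ((t : ℝ) + 2) * C * (1 + 2 * L) ^ (t + 1) := by positivity
  refine (mul_le_mul_of_nonneg_left (s2.trans s3) hKpos).trans ?_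
  have s4 : ((t : ℝ) + 2) * C * (1 + 2 * L) ^ (t + 1) ≤ (t + 2) * C * (4 ^ (t + 1) * L ^ (t + 1)) := by
    apply mul_le_mul_of_nonneg_left _ (by positivity)
    rw [← mul_pow]
    exact pow_le_pow_left₀ (by positivity) (by linarith) _
  have s5 : 0 ≤ (7 * L) * ((48 + 12 * 16 * 5) * L * (N : ℝ) ^ (1 - δ + η)) := by positivity
  refine (mul_le_mul_of_nonneg_right s4 s5).trans ?_
  have e2 : ((t : ℝ) + 2) * C * (4 ^ (t + 1) * L ^ (t + 1)) * ((7 * L) * ((48 + 12 * 16 * 5) * L * (N : ℝ) ^ (1 - δ + η))) =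
      ((t + 2) * C * 4 ^ (t + 1) * 7 * (48 + 12 * 16 * 5)) * L ^ (t + 3) * (N : ℝ) ^ (1 - δ + η) := by ring
  rw [e2]
  calc _ ≤ (N : ℝ) ^ (ε / 2) * (N : ℝ) ^ (1 - δ + η) := mul_le_mul_of_nonneg_right a1 hNκ.le
    _ = (N : ℝ) ^ (ε / 2 + (1 - δ + η)) := by rw [← Real.rpow_add hN0]
    _ ≤ _ := Real.rpow_le_rpow_of_exponent_le hNr (by linarith)

end Pool.Agent.Q148.DS
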