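import Pool.Agent.TH212.PS.P13

set_option autoImplicit false

/-! Divisor correlations with few exceptional shifts: the mean over arbitrary sets of shifts. -/

namespace Pool.Agent.Q148.DS
open Finset
open Pool.Agent.H807R2.Dav
open Pool.Agent.TH212.DV
open Pool.Agent.H373R2.T7 (orth sq_expand parseval_Icc triple fz)

lemma parseval_S (S : Finset ℤ) (c : ℤ → ℂ) (M : ℕ) (hM : 1 ≤ M) (hS : ∀ m ∈ S, ∀ m' ∈ S, |m - m'| < M) :
    ∑ t ∈ range M, ‖∑ m ∈ S, c m * ee ((t : ℝ) * ((m : ℝ) / M))‖ ^ 2 = M * ∑ m ∈ S, ‖c m‖ ^ 2 := by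
  have h1 := sq_expand S c (fun m => m) M hM
  have h2 : ∑ i ∈ S, ∑ j ∈ S, c i * (starRingEnd ℂ) (c j) * (if (M : ℤ) ∣ i - j then (M : ℂ) else 0) =
      ∑ i ∈ S, (M : ℂ) * ((‖c i‖ ^ 2 : ℝ) : ℂ) := by
    apply sum_congr rfl
    intro i hi
    rw [sum_eq_single i]
    · rw [sub_self, if_pos (dvd_zero _), Complex.mul_conj']
      push_cast
      ring
    · intro j hj hne
      rw [if_neg, mul_zero]
      intro hd
      apply hne
      have := Int.eq_zero_of_abs_lt_dvd hd (hS i hi j hj)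
      omega
    · intro h
      exact absurd hi h
  rw [h2, ← mul_sum] at h1
  have h3 : ((∑ t ∈ range M, ‖∑ m ∈ S, c m * ee ((t : ℝ) * ((m : ℝ) / M))‖ ^ 2 : ℝ) : ℂ) =
      ((M * ∑ m ∈ S, ‖c m‖ ^ 2 : ℝ) : ℂ) := by
    rw [h1]
    push_cast
    rfl
  exact_mod_cast h3

theorem l2 (A H M : ℕ) (hM1 : 1 ≤ M) (f G : ℕ → ℂ) (S : Finset ℤ) (c : ℤ → ℂ) (σ g2 : ℝ)
    (hM : ∀ a ∈ Icc 1 A, ∀ m ∈ S, ∀ n ∈ Icc 1 H, |(a : ℤ) + m - n| < M) (hAM : A ≤ M)
    (hS : ∀ m ∈ S, ∀ m' ∈ S, |m - m'| < M)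
    (hf : ∀ α : ℝ, ‖∑ n ∈ Icc 1 H, f n * ee ((n : ℝ) * α)‖ ≤ σ)
    (hG2 : ∑ a ∈ Icc 1 A, ‖G a‖ ^ 2 ≤ g2) (hc : ∀ m, ‖c m‖ ≤ 1) :
    ‖∑ a ∈ Icc 1 A, ∑ m ∈ S, G a * c m * fz f H (a + m)‖ ≤ σ * Real.sqrt (g2 * S.card) := by
  have hM0 : (0 : ℝ) < M := by exact_mod_cast hM1
  have hσ : 0 ≤ σ := (norm_nonneg _).trans (hf 0)
  have hg2 : 0 ≤ g2 := (sum_nonneg fun _ _ => by positivity).trans hG2
  set fh : ℕ → ℂ := fun t => ∑ n ∈ Icc 1 H, f n * ee ((t : ℝ) * ((((-1 : ℤ) * n : ℤ) : ℝ) / M)) with hfh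
  set Gh : ℕ → ℂ := fun t => ∑ a ∈ Icc 1 A, G a * ee ((t : ℝ) * ((((1 : ℤ) * a : ℤ) : ℝ) / M)) with hGh
  set Sh : ℕ → ℂ := fun t => ∑ m ∈ S, c m * ee ((t : ℝ) * ((m : ℝ) / M)) with hSh
  have hid : (M : ℂ) * ∑ a ∈ Icc 1 A, ∑ m ∈ S, G a * c m * fz f H (a + m) =
      ∑ t ∈ range M, fh t * Gh t * Sh t := by
    have h1 : ∀ t ∈ range M, fh t * Gh t * Sh t = ∑ a ∈ Icc 1 A, ∑ m ∈ S, ∑ n ∈ Icc 1 H,
        G a * c m * f n * ee ((t : ℝ) * ((((a : ℤ) + m - n : ℤ) : ℝ) / M)) := by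
      intro t _
      rw [hfh, hGh, hSh]
      simp only
      rw [← triple]
      apply sum_congr rfl
      intro a _
      apply sum_congr rfl
      intro m _
      apply sum_congr rfl
      intro n _
      have h2 : ee ((t : ℝ) * ((((a : ℤ) + m - n : ℤ) : ℝ) / M)) =
          ee ((t : ℝ) * ((((1 : ℤ) * a : ℤ) : ℝ) / M)) * ee ((t : ℝ) * ((((-1 : ℤ) * n : ℤ) : ℝ) / M)) * ee ((t : ℝ) * ((m : ℝ) / M)) := by
        rw [← ee_add, ← ee_add]
        congr 1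
        push_cast
        ring
      rw [h2]
      ring
    rw [sum_congr rfl h1]
    symm
    rw [sum_comm, mul_sum]
    apply sum_congr rfl
    intro a ha
    rw [sum_comm, mul_sum]
    apply sum_congr rfl
    intro m hm
    rw [sum_comm]
    have h2 : ∀ n ∈ Icc 1 H, ∑ t ∈ range M, G a * c m * f n * ee ((t : ℝ) * ((((a : ℤ) + m - n : ℤ) : ℝ) / M)) =
        if (n : ℤ) = a + m then (M : ℂ) * (G a * c m * f n) else 0 := by
      intro n hn
      rw [← mul_sum, orth M hM1]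
      by_cases h3 : (n : ℤ) = a + m
      · rw [if_pos h3, if_pos (by rw [h3]; simp)]
        ring
      · rw [if_neg h3, if_neg, mul_zero]
        intro hd
        apply h3
        have := Int.eq_zero_of_abs_lt_dvd hd (hM a ha m hm n hn)
        omega
    rw [sum_congr rfl h2]
    unfold fz
    by_cases h3 : 1 ≤ (a : ℤ) + m ∧ (a : ℤ) + m ≤ H
    · rw [if_pos h3, sum_eq_single ((a : ℤ) + m).toNat]
      · rw [if_pos (by rw [Int.toNat_of_nonneg (by omega)])]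
      · intro n _ hne
        rw [if_neg]
        intro h4
        apply hne
        omega
      · intro h4
        exfalso
        apply h4
        rw [mem_Icc]
        omega
    · rw [if_neg h3, mul_zero, mul_zero]
      apply sum_eq_zero
      intro n hn
      rw [mem_Icc] at hn
      rw [if_neg]
      omega
  have hfh1 : ∀ t, ‖fh t‖ ≤ σ := by
    intro t
    have h1 : fh t = ∑ n ∈ Icc 1 H, f n * ee ((n : ℝ) * (-(t : ℝ) / M)) := by
      rw [hfh]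
      apply sum_congr rfl
      intro n _
      congr 2
      push_cast
      ring
    rw [h1]
    exact hf _
  have p1 : ∑ t ∈ range M, ‖Gh t‖ ^ 2 ≤ M * g2 := by
    have := parseval_Icc A M hM1 hAM G 1 (Or.inl rfl)
    rw [hGh]
    simp only
    rw [this]
    exact mul_le_mul_of_nonneg_left hG2 hM0.le
  have p2 : ∑ t ∈ range M, ‖Sh t‖ ^ 2 ≤ M * S.card := by
    have := parseval_S S c M hM1 hS
    rw [hSh]
    simp only
    rw [this]
    apply mul_le_mul_of_nonneg_left _ hM0.le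
    calc ∑ m ∈ S, ‖c m‖ ^ 2 ≤ ∑ _m ∈ S, (1 : ℝ) := by
          apply sum_le_sum
          intro m _
          have := hc m
          have := norm_nonneg (c m)
          nlinarith
      _ = S.card := by rw [sum_const, nsmul_eq_mul, mul_one]
  have p3 : ∑ t ∈ range M, ‖Gh t‖ * ‖Sh t‖ ≤ M * Real.sqrt (g2 * S.card) := by
    have h1 := Finset.sum_mul_sq_le_sq_mul_sq (range M) (fun t => ‖Gh t‖) (fun t => ‖Sh t‖)
    have h2 : (∑ t ∈ range M, ‖Gh t‖ * ‖Sh t‖) ^ 2 ≤ (M * g2) * (M * S.card) :=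
      h1.trans (mul_le_mul p1 p2 (sum_nonneg fun _ _ => by positivity) (by positivity))
    have h3 : (M * Real.sqrt (g2 * S.card)) ^ 2 = (M * g2) * (M * S.card) := by
      rw [mul_pow, Real.sq_sqrt (by positivity)]
      ring
    have h4 : 0 ≤ M * Real.sqrt (g2 * S.card) := by positivity
    rw [← h3] at h2
    exact (abs_le_of_sq_le_sq' h2 h4).2
  have h5 : (M : ℝ) * ‖∑ a ∈ Icc 1 A, ∑ m ∈ S, G a * c m * fz f H (a + m)‖ ≤ M * (σ * Real.sqrt (g2 * S.card)) := by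
    have e1 : (M : ℝ) * ‖∑ a ∈ Icc 1 A, ∑ m ∈ S, G a * c m * fz f H (a + m)‖ = ‖∑ t ∈ range M, fh t * Gh t * Sh t‖ := by
      rw [← hid, norm_mul]
      congr 1
      simp
    rw [e1]
    calc ‖∑ t ∈ range M, fh t * Gh t * Sh t‖ ≤ ∑ t ∈ range M, σ * (‖Gh t‖ * ‖Sh t‖) := by
          refine (norm_sum_le _ _).trans (sum_le_sum fun t _ => ?_)
          rw [norm_mul, norm_mul, mul_assoc]
          exact mul_le_mul_of_nonneg_right (hfh1 t) (by positivity)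
      _ = σ * ∑ t ∈ range M, ‖Gh t‖ * ‖Sh t‖ := by rw [mul_sum]
      _ ≤ σ * (M * Real.sqrt (g2 * S.card)) := mul_le_mul_of_nonneg_left p3 hσ
      _ = _ := by ring
  exact le_of_mul_le_mul_left h5 hM0

/-- the first moment over an arbitrary set of shifts -/
theorem first (N : ℕ) (hN : 1 ≤ N) (S : Finset ℤ) (hS : ∀ m ∈ S, |m| ≤ (N : ℤ)) (A H : ℕ) (hA : A ≤ 2 * N) (hH : H ≤ 2 * N)
    (G f : ℕ → ℝ) (g σ : ℝ) (hG : ∀ a ∈ Icc 1 A, |G a| ≤ g)
    (hsup : ∀ α : ℝ, ‖∑ n ∈ Icc 1 H, ((f n : ℝ) : ℂ) * ee ((n : ℝ) * α)‖ ≤ σ) :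
    ∑ m ∈ S, |∑ a ∈ Icc 1 A, G a * (if 1 ≤ (a : ℤ) + m ∧ (a : ℤ) + m ≤ H then f ((a : ℤ) + m).toNat else 0)| ≤
      σ * Real.sqrt (2 * N * g ^ 2 * S.card) := by
  obtain ⟨T, hT⟩ : ∃ T : ℤ → ℝ, T = fun m => ∑ a ∈ Icc 1 A, G a *
      (if 1 ≤ (a : ℤ) + m ∧ (a : ℤ) + m ≤ H then f ((a : ℤ) + m).toNat else 0) := ⟨_, rfl⟩
  obtain ⟨c, hc⟩ : ∃ c : ℤ → ℂ, c = fun m => if 0 ≤ T m then 1 else -1 := ⟨_, rfl⟩
  have hc1 : ∀ m, ‖c m‖ ≤ 1 := by
    intro m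
    rw [hc]
    simp only
    split_ifs <;> simp
  have hcS : ∀ m, c m * (T m : ℂ) = ((|T m| : ℝ) : ℂ) := by
    intro m
    rw [hc]
    simp only
    split_ifs with h
    · rw [abs_of_nonneg h, one_mul]
    · rw [abs_of_neg (not_le.1 h)]
      push_cast
      ring
  have hG2 : ∑ a ∈ Icc 1 A, ‖((G a : ℝ) : ℂ)‖ ^ 2 ≤ 2 * N * g ^ 2 := by
    have q1 : ∀ a ∈ Icc 1 A, ‖((G a : ℝ) : ℂ)‖ ^ 2 ≤ g ^ 2 := by
      intro a ha
      rw [Complex.norm_real, Real.norm_eq_abs]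
      exact pow_le_pow_left₀ (abs_nonneg _) (hG a ha) 2
    refine (sum_le_sum q1).trans ?_
    rw [sum_const, Nat.card_Icc, nsmul_eq_mul, Nat.add_sub_cancel]
    have : ((A : ℕ) : ℝ) ≤ 2 * N := by exact_mod_cast hA
    exact mul_le_mul_of_nonneg_right this (by positivity)
  have key := l2 A H (5 * N) (by omega) (fun n => ((f n : ℝ) : ℂ)) (fun n => ((G n : ℝ) : ℂ)) S c σ (2 * N * g ^ 2) (by
    intro a ha m hm n hn
    have h4 := abs_le.1 (hS m hm)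
    rw [mem_Icc] at ha hn
    rw [abs_lt]
    push_cast
    omega) (by omega) (by
    intro m hm m' hm'
    have h4 := abs_le.1 (hS m hm)
    have h5 := abs_le.1 (hS m' hm')
    rw [abs_lt]
    push_cast
    omega) hsup hG2 hc1
  have heq : ∑ a ∈ Icc 1 A, ∑ m ∈ S, ((G a : ℝ) : ℂ) * c m * fz (fun n => ((f n : ℝ) : ℂ)) H (a + m) =
      ((∑ m ∈ S, |T m| : ℝ) : ℂ) := by
    rw [sum_comm]
    push_cast
    apply sum_congr rfl
    intro m _
    rw [← hcS m, hT]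
    push_cast
    rw [mul_sum]
    apply sum_congr rfl
    intro a _
    unfold fz
    split_ifs <;> simp
    ring
  rw [heq, Complex.norm_real, Real.norm_of_nonneg (sum_nonneg fun _ _ => abs_nonneg _)] at key
  rw [hT] at key
  exact key

end Pool.Agent.Q148.DS
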