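import Pool.Agent.TH212.PS.P13

set_option autoImplicit false

/-! Divisor correlations with few exceptional shifts: correlations of the models. -/

namespace Pool.Agent.Q148.DS
open Finset
open Pool.Agent.H807R2.Dav
open Pool.Agent.TH212.DV
open Pool.Agent.TH212.PS

lemma inner_KK (z : ℕ) (hz : 1 ≤ z) (x y : Σ _ : ℕ, ℕ) (hx : x ∈ PP z) (hy : y ∈ PP z) (hne : x ≠ y) (A : ℕ) :
    ‖∑ n ∈ Icc 1 A, ee ((n : ℝ) * ((y.2 : ℝ) / y.1 - (x.2 : ℝ) / x.1))‖ ≤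
      5 / 4 * KK ((z ^ 2 : ℕ) : ℝ) ((y.2 : ℝ) / y.1 - (x.2 : ℝ) / x.1) := by
  have hz0 : (0 : ℝ) < z := by exact_mod_cast hz
  obtain ⟨β, hβ⟩ : ∃ β : ℝ, β = (y.2 : ℝ) / y.1 - (x.2 : ℝ) / x.1 := ⟨_, rfl⟩
  have h1 : 1 / (z : ℝ) ^ 2 ≤ |red β| := by
    by_contra hc
    push Not at hc
    apply hne
    apply separated z (-((x.2 : ℝ) / x.1)) x y hx hy
    rw [neg_add_cancel, red_zero, zero_sub, abs_neg]
    have e : -((x.2 : ℝ) / x.1) + (y.2 : ℝ) / y.1 = β := by rw [hβ]; ring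
    rw [e]
    exact hc
  have h2 : 4 * (1 / (z : ℝ) ^ 2) ≤ dd β := by
    have h3 := dd_red (red β) (abs_red β)
    have h4 : dd (red β) = dd β := by
      unfold red
      have : β - (round β : ℝ) = β + ((-round β : ℤ) : ℝ) := by push_cast; ring
      rw [this, dd_add_int]
    rw [h4] at h3
    linarith
  have h3 : ‖∑ n ∈ Ico 1 (A + 1), ee ((n : ℝ) * β)‖ ≤ KK A β := geo_bound 1 (A + 1) (by omega) (by push_cast; linarith) _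
  rw [← hβ]
  have h4 : Icc 1 A = Ico 1 (A + 1) := rfl
  rw [h4]
  have hd0 : 0 < dd β := lt_of_lt_of_le (by positivity) h2
  refine h3.trans ((KK_le' (Nat.cast_nonneg _) hd0 le_rfl).trans ?_)
  have h5 : 4 ≤ (z : ℝ) ^ 2 * dd β := by
    have h6 := mul_le_mul_of_nonneg_left h2 (by positivity : (0 : ℝ) ≤ (z : ℝ) ^ 2)
    have h7 : (z : ℝ) ^ 2 * (4 * (1 / (z : ℝ) ^ 2)) = 4 := by field_simp
    linarith
  unfold KK
  push_cast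
  rw [← mul_div_assoc, div_le_div_iff₀ hd0 (by positivity)]
  nlinarith

lemma inner_sum (z : ℕ) (hz : 1 ≤ z) (α : ℝ) :
    ∑ y ∈ PP z, 1 / (y.1 : ℝ) * KK ((z ^ 2 : ℕ) : ℝ) (α + (y.2 : ℝ) / y.1) ≤ 75 * (z : ℝ) ^ 2 * (1 + Real.log z) ^ 2 := by
  have hz0 : (0 : ℝ) < z := by exact_mod_cast hz
  have hz1 : (1 : ℝ) ≤ z := by exact_mod_cast hz
  have hl : 0 ≤ Real.log z := Real.log_nonneg hz1
  have e1 : ∑ y ∈ PP z, 1 / (y.1 : ℝ) * KK ((z ^ 2 : ℕ) : ℝ) (α + (y.2 : ℝ) / y.1) =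
      ∑ q ∈ Icc 1 z, 1 / (q : ℝ) * ∑ b ∈ Rd q, KK ((z ^ 2 : ℕ) : ℝ) (α + (b : ℝ) / q) := by
    unfold PP
    rw [sum_sigma]
    apply sum_congr rfl
    intro q _
    rw [mul_sum]
  have e2 : Icc 1 z = insert 1 (Ioc 1 z) := by
    ext q
    rw [mem_insert, mem_Icc, mem_Ioc]
    omega
  rw [e1, e2, sum_insert (by simp)]
  have h1 : 1 / ((1 : ℕ) : ℝ) * ∑ b ∈ Rd 1, KK ((z ^ 2 : ℕ) : ℝ) (α + (b : ℝ) / (1 : ℕ)) ≤ 3 * (z : ℝ) ^ 2 := by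
    have h2 : ∀ b ∈ Rd 1, KK ((z ^ 2 : ℕ) : ℝ) (α + (b : ℝ) / (1 : ℕ)) ≤ 3 * (z : ℝ) ^ 2 := by
      intro b _
      refine (KK_le (Nat.cast_nonneg _) _).trans (le_of_eq ?_)
      push_cast
      ring
    have h3 : ((Rd 1).card : ℝ) = 1 := by rw [card_Rd]; simp
    have h4 := sum_le_sum h2
    rw [sum_const, nsmul_eq_mul, h3, one_mul] at h4
    simpa using h4
  have h2 := dyadic z 1 (z ^ 2) le_rfl hz α 0 le_rfl (by norm_num)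
  have h3 : ∑ q ∈ Ioc 1 z, 1 / (q : ℝ) * ∑ b ∈ Rd q, KK ((z ^ 2 : ℕ) : ℝ) (α + (b : ℝ) / q) ≤
      (1 + 2 * Real.log z) * (12 * (z : ℝ) ^ 2 + 12 * z * (2 + Real.log z)) := by
    refine le_trans (le_of_eq ?_) (h2.trans (le_of_eq ?_))
    · apply sum_congr rfl
      intro q _
      congr 1
      rw [zero_sub, Real.rpow_neg_one, one_div]
    · push_cast
      rw [Real.one_rpow, mul_one, add_zero, Real.rpow_one]
  obtain ⟨L, hL⟩ : ∃ L : ℝ, L = Real.log z := ⟨_, rfl⟩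
  rw [← hL] at hl h3 ⊢
  have h4 : (1 + 2 * L) * (12 * (z : ℝ) ^ 2 + 12 * z * (2 + L)) ≤ 72 * (z : ℝ) ^ 2 * (1 + L) ^ 2 := by
    have h5 : 12 * (z : ℝ) ^ 2 + 12 * z * (2 + L) ≤ 36 * (z : ℝ) ^ 2 * (1 + L) := by
      have h6 : (z : ℝ) ≤ (z : ℝ) ^ 2 := by nlinarith
      have h7 : (z : ℝ) * (2 + L) ≤ (z : ℝ) ^ 2 * (2 + L) := mul_le_mul_of_nonneg_right h6 (by linarith)
      have h8 : 0 ≤ (z : ℝ) ^ 2 * L := by positivity
      nlinarith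
    calc (1 + 2 * L) * (12 * (z : ℝ) ^ 2 + 12 * z * (2 + L)) ≤ (2 * (1 + L)) * (36 * (z : ℝ) ^ 2 * (1 + L)) :=
          mul_le_mul (by linarith) h5 (by positivity) (by positivity)
      _ = _ := by ring
  have h5 : 3 * (z : ℝ) ^ 2 ≤ 3 * (z : ℝ) ^ 2 * (1 + L) ^ 2 := by
    have : 1 ≤ (1 + L) ^ 2 := by nlinarith
    nlinarith [sq_nonneg (z : ℝ)]
  linarith

lemma PP_inv (z : ℕ) : ∑ x ∈ PP z, 1 / (x.1 : ℝ) ≤ z := by
  unfold PP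
  rw [sum_sigma]
  calc ∑ q ∈ Icc 1 z, ∑ _b ∈ Rd q, 1 / (q : ℝ) ≤ ∑ _q ∈ Icc 1 z, (1 : ℝ) := by
        apply sum_le_sum
        intro q hq
        rw [mem_Icc] at hq
        have hq0 : (0 : ℝ) < q := by exact_mod_cast hq.1
        rw [sum_const, nsmul_eq_mul, card_Rd, mul_one_div, div_le_one hq0]
        exact_mod_cast Nat.totient_le q
    _ = z := by rw [sum_const, Nat.card_Icc, nsmul_eq_mul]; simp

/-- correlations of two models with moving cut-offs -/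
theorem corr_Z (W : ℕ → ℝ) (hW : ∀ a, 0 ≤ W a) (Y D z A : ℕ) (hz : 1 ≤ z) (h : ℤ) (ρ : ℝ) (hρ : 0 ≤ ρ)
    (h1 : ∀ q ∈ Icc 1 z, ∀ n : ℕ, ww W Y D q n ≤ ρ / q) :
    |∑ n ∈ Icc 1 A, MY W Y D z n * MY W Y D z ((n : ℤ) + h).toNat -
      ∑ q ∈ Icc 1 z, (cz q h : ℝ) * ∑ n ∈ Icc 1 A, ww W Y D q n * ww W Y D q ((n : ℤ) + h).toNat| ≤
      200 * ρ ^ 2 * (z : ℝ) ^ 3 * (1 + Real.log z) ^ 2 := by
  classical
  have e0 : ∀ n : ℕ, ((MY W Y D z n : ℝ) : ℂ) = ∑ x ∈ PP z, (ww W Y D x.1 n : ℂ) * ee (-((n : ℝ) * ((x.2 : ℝ) / x.1))) := by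
    intro n
    have e1 : ((MY W Y D z n : ℝ) : ℂ) = (starRingEnd ℂ) ((MY W Y D z ((n : ℤ)).toNat : ℝ) : ℂ) := by
      rw [Complex.conj_ofReal, Int.toNat_natCast]
    rw [e1, MY_eq, map_sum]
    apply sum_congr rfl
    intro x _
    rw [map_mul, Complex.conj_ofReal, Pool.Agent.H373R2.T7.conj_ee, Int.toNat_natCast]
    push_cast
    rfl
  have e2 : ((∑ n ∈ Icc 1 A, MY W Y D z n * MY W Y D z ((n : ℤ) + h).toNat : ℝ) : ℂ) =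
      ∑ x ∈ PP z, ∑ y ∈ PP z, ee (h * ((y.2 : ℝ) / y.1)) *
        ∑ n ∈ Icc 1 A, ((ww W Y D x.1 n * ww W Y D y.1 ((n : ℤ) + h).toNat : ℝ) : ℂ) * ee ((n : ℝ) * ((y.2 : ℝ) / y.1 - (x.2 : ℝ) / x.1)) := by
    push_cast
    have e3 : ∀ n ∈ Icc 1 A, ((MY W Y D z n : ℝ) : ℂ) * ((MY W Y D z ((n : ℤ) + h).toNat : ℝ) : ℂ) =
        ∑ x ∈ PP z, ∑ y ∈ PP z, ee (h * ((y.2 : ℝ) / y.1)) * ((ww W Y D x.1 n : ℂ) * (ww W Y D y.1 ((n : ℤ) + h).toNat : ℂ) *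
          ee ((n : ℝ) * ((y.2 : ℝ) / y.1 - (x.2 : ℝ) / x.1))) := by
      intro n _
      rw [e0 n, MY_eq W Y D z, sum_mul_sum]
      apply sum_congr rfl
      intro x _
      apply sum_congr rfl
      intro y _
      have e4 : ee ((((n : ℤ) + h : ℤ) : ℝ) * ((y.2 : ℝ) / y.1)) = ee (h * ((y.2 : ℝ) / y.1)) * ee ((n : ℝ) * ((y.2 : ℝ) / y.1)) := by
        rw [← ee_add]
        congr 1
        push_cast
        ring
      have e5 : ee ((n : ℝ) * ((y.2 : ℝ) / y.1 - (x.2 : ℝ) / x.1)) = ee ((n : ℝ) * ((y.2 : ℝ) / y.1)) * ee (-((n : ℝ) * ((x.2 : ℝ) / x.1))) := by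
        rw [← ee_add]
        congr 1
        ring
      rw [e4, e5]
      ring
    rw [sum_congr rfl e3, sum_comm]
    apply sum_congr rfl
    intro x _
    rw [sum_comm]
    apply sum_congr rfl
    intro y _
    rw [mul_sum]
  have e3 : ((∑ q ∈ Icc 1 z, (cz q h : ℝ) * ∑ n ∈ Icc 1 A, ww W Y D q n * ww W Y D q ((n : ℤ) + h).toNat : ℝ) : ℂ) =
      ∑ x ∈ PP z, ee (h * ((x.2 : ℝ) / x.1)) *
        ∑ n ∈ Icc 1 A, ((ww W Y D x.1 n * ww W Y D x.1 ((n : ℤ) + h).toNat : ℝ) : ℂ) * ee ((n : ℝ) * ((x.2 : ℝ) / x.1 - (x.2 : ℝ) / x.1)) := by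
    unfold PP
    rw [sum_sigma]
    push_cast
    apply sum_congr rfl
    intro q hq
    rw [mem_Icc] at hq
    rw [← cr_eq q h (by omega)]
    unfold cr
    rw [sum_mul]
    apply sum_congr rfl
    intro a _
    congr 1
    apply sum_congr rfl
    intro n _
    rw [sub_self, mul_zero, ee_zero, mul_one]
  have e5 : ((∑ n ∈ Icc 1 A, MY W Y D z n * MY W Y D z ((n : ℤ) + h).toNat -
      ∑ q ∈ Icc 1 z, (cz q h : ℝ) * ∑ n ∈ Icc 1 A, ww W Y D q n * ww W Y D q ((n : ℤ) + h).toNat : ℝ) : ℂ) =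
      ∑ x ∈ PP z, ∑ y ∈ (PP z).erase x, ee (h * ((y.2 : ℝ) / y.1)) *
        ∑ n ∈ Icc 1 A, ((ww W Y D x.1 n * ww W Y D y.1 ((n : ℤ) + h).toNat : ℝ) : ℂ) * ee ((n : ℝ) * ((y.2 : ℝ) / y.1 - (x.2 : ℝ) / x.1)) := by
    rw [Complex.ofReal_sub, e2, e3, ← sum_sub_distrib]
    apply sum_congr rfl
    intro x hx
    rw [← add_sum_erase _ _ hx]
    ring
  have e6 : |∑ n ∈ Icc 1 A, MY W Y D z n * MY W Y D z ((n : ℤ) + h).toNat -
      ∑ q ∈ Icc 1 z, (cz q h : ℝ) * ∑ n ∈ Icc 1 A, ww W Y D q n * ww W Y D q ((n : ℤ) + h).toNat| =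
      ‖((∑ n ∈ Icc 1 A, MY W Y D z n * MY W Y D z ((n : ℤ) + h).toNat -
      ∑ q ∈ Icc 1 z, (cz q h : ℝ) * ∑ n ∈ Icc 1 A, ww W Y D q n * ww W Y D q ((n : ℤ) + h).toNat : ℝ) : ℂ)‖ := by
    rw [Complex.norm_real, Real.norm_eq_abs]
  rw [e6, e5]
  have hz0 : (0 : ℝ) < z := by exact_mod_cast hz
  have hmemq : ∀ x ∈ PP z, x.1 ∈ Icc 1 z := by
    intro x hx
    unfold PP at hx
    exact (mem_sigma.1 hx).1
  have hKn : ∀ β, 0 ≤ KK ((z ^ 2 : ℕ) : ℝ) β := fun β => KK_nonneg (Nat.cast_nonneg _) β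
  calc ‖∑ x ∈ PP z, ∑ y ∈ (PP z).erase x, ee (h * ((y.2 : ℝ) / y.1)) *
        ∑ n ∈ Icc 1 A, ((ww W Y D x.1 n * ww W Y D y.1 ((n : ℤ) + h).toNat : ℝ) : ℂ) * ee ((n : ℝ) * ((y.2 : ℝ) / y.1 - (x.2 : ℝ) / x.1))‖
      ≤ ∑ x ∈ PP z, ∑ y ∈ (PP z).erase x, 5 / 2 * ρ ^ 2 * (1 / (x.1 : ℝ)) *
          (1 / (y.1 : ℝ) * KK ((z ^ 2 : ℕ) : ℝ) (-((x.2 : ℝ) / x.1) + (y.2 : ℝ) / y.1)) := by
        refine (norm_sum_le _ _).trans (sum_le_sum fun x hx => ?_)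
        refine (norm_sum_le _ _).trans (sum_le_sum fun y hy => ?_)
        rw [mem_erase] at hy
        rw [norm_mul, norm_ee, one_mul]
        have hx1 : (0 : ℝ) < x.1 := by exact_mod_cast (mem_Icc.1 (hmemq x hx)).1
        have hy1 : (0 : ℝ) < y.1 := by exact_mod_cast (mem_Icc.1 (hmemq y hy.2)).1
        have g1 := abel_c (fun n => ww W Y D x.1 n * ww W Y D y.1 ((n : ℤ) + h).toNat)
          (fun n => ee ((n : ℝ) * ((y.2 : ℝ) / y.1 - (x.2 : ℝ) / x.1)))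
          (5 / 4 * KK ((z ^ 2 : ℕ) : ℝ) ((y.2 : ℝ) / y.1 - (x.2 : ℝ) / x.1)) A
          (mul_nonneg (ww_nonneg W hW _ _ _ _) (ww_nonneg W hW _ _ _ _)) (by
            intro n
            apply mul_le_mul (ww_mono W hW _ _ _ _ _ (by omega)) (ww_mono W hW _ _ _ _ _ (by omega)) (ww_nonneg W hW _ _ _ _) (ww_nonneg W hW _ _ _ _))
          (fun m _ => inner_KK z hz x y hx hy.2 (Ne.symm hy.1) m)
        refine g1.trans ?_
        have g2 : ww W Y D x.1 A * ww W Y D y.1 ((A : ℤ) + h).toNat ≤ (ρ / x.1) * (ρ / y.1) :=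
          mul_le_mul (h1 _ (hmemq x hx) _) (h1 _ (hmemq y hy.2) _) (ww_nonneg W hW _ _ _ _) (by positivity)
        have g3 : -((x.2 : ℝ) / x.1) + (y.2 : ℝ) / y.1 = (y.2 : ℝ) / y.1 - (x.2 : ℝ) / x.1 := by ring
        rw [g3]
        calc 2 * (ww W Y D x.1 A * ww W Y D y.1 ((A : ℤ) + h).toNat) *
              (5 / 4 * KK ((z ^ 2 : ℕ) : ℝ) ((y.2 : ℝ) / y.1 - (x.2 : ℝ) / x.1)) ≤
              2 * ((ρ / x.1) * (ρ / y.1)) * (5 / 4 * KK ((z ^ 2 : ℕ) : ℝ) ((y.2 : ℝ) / y.1 - (x.2 : ℝ) / x.1)) := by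
              apply mul_le_mul_of_nonneg_right _ (by have := hKn ((y.2 : ℝ) / y.1 - (x.2 : ℝ) / x.1); positivity)
              linarith
          _ = _ := by field_simp; ring
    _ ≤ ∑ x ∈ PP z, ∑ y ∈ PP z, 5 / 2 * ρ ^ 2 * (1 / (x.1 : ℝ)) *
          (1 / (y.1 : ℝ) * KK ((z ^ 2 : ℕ) : ℝ) (-((x.2 : ℝ) / x.1) + (y.2 : ℝ) / y.1)) := by
        apply sum_le_sum
        intro x _
        apply sum_le_sum_of_subset_of_nonneg (erase_subset _ _)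
        intro y _ _
        have := hKn (-((x.2 : ℝ) / x.1) + (y.2 : ℝ) / y.1)
        positivity
    _ ≤ ∑ x ∈ PP z, 5 / 2 * ρ ^ 2 * (1 / (x.1 : ℝ)) * (75 * (z : ℝ) ^ 2 * (1 + Real.log z) ^ 2) := by
        apply sum_le_sum
        intro x _
        rw [← mul_sum]
        exact mul_le_mul_of_nonneg_left (inner_sum z hz _) (by positivity)
    _ = (5 / 2 * ρ ^ 2 * (75 * (z : ℝ) ^ 2 * (1 + Real.log z) ^ 2)) * ∑ x ∈ PP z, 1 / (x.1 : ℝ) := by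
        rw [mul_sum]
        apply sum_congr rfl
        intro x _
        ring
    _ ≤ (5 / 2 * ρ ^ 2 * (75 * (z : ℝ) ^ 2 * (1 + Real.log z) ^ 2)) * z :=
        mul_le_mul_of_nonneg_left (PP_inv z) (by positivity)
    _ ≤ _ := by
        have : 0 ≤ ρ ^ 2 * (z : ℝ) ^ 3 * (1 + Real.log z) ^ 2 := by positivity
        nlinarith

end Pool.Agent.Q148.DS
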