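import Pool.Agent.Q148.DS.A1
import Pool.Agent.Q148.DS.A2
import Pool.Agent.Q148.DS.A3

set_option autoImplicit false

/-! Divisor correlations with few exceptional shifts: the decomposition (adapted from the starting file
`Pool.Agent.TH212.PS.P5`) and the number of the exceptional shifts. -/

namespace Pool.Agent.Q148.DS
open Finset
open Pool.Agent.H807R2.Dav
open Pool.Agent.TH212.DV
open Pool.Agent.TH212.PS

lemma decomp' (t Y D z x N H : ℕ) (h : ℤ) (K : ℝ) (hK : 0 ≤ K) (hz : 1 ≤ z) (hx : x ≤ N) (hH : H = 2 * N) (hh : |h| ≤ N)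
    (hYD : ∀ a n, n ≤ H → a * Y < n → a ≤ D)
    (hd : ∀ n, 1 ≤ n → n ≤ H → (dk (t + 2) n : ℝ) ≤ K ∧ FY (WE Y t) Y D n ≤ K ∧ |MY (WE Y t) Y D z n| ≤ K)
    (hw : ∀ q ∈ Icc 1 z, ∀ n : ℕ, ww (WE Y t) Y D q n ≤ K / q) :
    |Dr (t + 2) x h - Mn (WE Y t) Y D z x h| ≤
      |∑ a ∈ Icc 1 x, (dk (t + 2) a : ℝ) * (if 1 ≤ (a : ℤ) + h ∧ (a : ℤ) + h ≤ H then
        (fun n => FY (WE Y t) Y D n - MY (WE Y t) Y D z n) ((a : ℤ) + h).toNat else 0)| +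
      |∑ a ∈ Icc 1 H, MY (WE Y t) Y D z a * (if 1 ≤ (a : ℤ) + -h ∧ (a : ℤ) + -h ≤ x then
        (fun n => FY (WE Y t) Y D n - MY (WE Y t) Y D z n) ((a : ℤ) + -h).toNat else 0)| +
      (2 * (Y : ℝ) ^ (t + 2) * K ^ 2 + 200 * K ^ 2 * (z : ℝ) ^ 3 * (1 + Real.log z) ^ 2) := by
  have hhb := abs_le.1 hh
  have hbd : ∀ n : ℕ, n ≤ x → (n : ℤ) + h ≤ H := by
    intro n hn
    rw [hH]
    push_cast
    have : (n : ℤ) ≤ N := by exact_mod_cast hn.trans hx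
    linarith [hhb.2]
  have hxH : x ≤ H := by omega
  have hM0 : ∀ m : ℕ, m ≤ H → |MY (WE Y t) Y D z m| ≤ K := by
    intro m hm
    rcases Nat.eq_zero_or_pos m with h0 | h0
    · rw [h0, MY_zero, abs_zero]; exact hK
    · exact (hd m h0 hm).2.2
  have hDF : ∀ m : ℕ, 1 ≤ m → m ≤ H → |(dk (t + 2) m : ℝ) - FY (WE Y t) Y D m| ≤ K := by
    intro m h1 h2
    obtain ⟨g1, g2, _⟩ := hd m h1 h2
    have g3 : 0 ≤ FY (WE Y t) Y D m := FY_nonneg _ (WE_nonneg Y t) _ _ _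
    have g4 : (0 : ℝ) ≤ dk (t + 2) m := Nat.cast_nonneg _
    rw [abs_le]
    constructor <;> linarith
  have hDF0 : ∀ m : ℕ, m ≤ H → Y ^ (t + 2) < m → (dk (t + 2) m : ℝ) - FY (WE Y t) Y D m = 0 := by
    intro m h1 h2
    have g1 := dk_FY Y (t + 2) D m h2 (fun a ha _ => hYD a m h1 ha)
    have g2 : (fun a => (EE Y (t + 2) a : ℝ)) = WE Y t := rfl
    rw [g2] at g1
    rw [g1, sub_self]
  -- the five parts
  have e : Dr (t + 2) x h - Mn (WE Y t) Y D z x h =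
      ∑ n ∈ Icc 1 x, (dk (t + 2) n : ℝ) * ((fun m => (dk (t + 2) m : ℝ) - FY (WE Y t) Y D m) ((n : ℤ) + h).toNat) +
      ∑ n ∈ Icc 1 x, (dk (t + 2) n : ℝ) * ((fun m => FY (WE Y t) Y D m - MY (WE Y t) Y D z m) ((n : ℤ) + h).toNat) +
      ∑ n ∈ Icc 1 x, ((dk (t + 2) n : ℝ) - FY (WE Y t) Y D n) * MY (WE Y t) Y D z ((n : ℤ) + h).toNat +
      ∑ n ∈ Icc 1 x, (FY (WE Y t) Y D n - MY (WE Y t) Y D z n) * MY (WE Y t) Y D z ((n : ℤ) + h).toNat +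
      (∑ n ∈ Icc 1 x, MY (WE Y t) Y D z n * MY (WE Y t) Y D z ((n : ℤ) + h).toNat - Mn (WE Y t) Y D z x h) := by
    unfold Dr
    rw [← sum_add_distrib, ← sum_add_distrib, ← sum_add_distrib, ← add_sub_assoc, ← sum_add_distrib]
    congr 1
    apply sum_congr rfl
    intro n _
    ring
  have a1 : |∑ n ∈ Icc 1 x, (dk (t + 2) n : ℝ) * ((fun m => (dk (t + 2) m : ℝ) - FY (WE Y t) Y D m) ((n : ℤ) + h).toNat)| ≤
      (Y : ℝ) ^ (t + 2) * K ^ 2 := by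
    rw [← reindex' x H h hbd (fun m => (dk (t + 2) m : ℝ) - FY (WE Y t) Y D m) (fun n => (dk (t + 2) n : ℝ)) (by
      show (dk (t + 2) 0 : ℝ) - FY (WE Y t) Y D 0 = 0
      rw [Pool.Agent.TH212.PS.dk_zero, FY_zero]; simp)]
    have := small_sum (Y ^ (t + 2)) H (fun m => ((dk (t + 2) m : ℝ) - FY (WE Y t) Y D m) *
      (if 1 ≤ (m : ℤ) + -h ∧ (m : ℤ) + -h ≤ x then (dk (t + 2) ((m : ℤ) + -h).toNat : ℝ) else 0)) (K ^ 2) (by positivity) (by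
        intro m hm
        rw [mem_Icc] at hm
        show |((dk (t + 2) m : ℝ) - FY (WE Y t) Y D m) *
          (if 1 ≤ (m : ℤ) + -h ∧ (m : ℤ) + -h ≤ x then (dk (t + 2) ((m : ℤ) + -h).toNat : ℝ) else 0)| ≤ K ^ 2
        rw [abs_mul, pow_two]
        apply mul_le_mul (hDF m hm.1 hm.2) _ (abs_nonneg _) hK
        split_ifs with hc
        · rw [abs_of_nonneg (Nat.cast_nonneg _)]
          exact (hd _ (by omega) (by omega)).1
        · rw [abs_zero]; exact hK) (by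
        intro m hm hS
        rw [mem_Icc] at hm
        show ((dk (t + 2) m : ℝ) - FY (WE Y t) Y D m) * _ = 0
        rw [hDF0 m hm.2 hS, zero_mul])
    push_cast at this
    exact this
  have a2 : ∑ n ∈ Icc 1 x, (dk (t + 2) n : ℝ) * ((fun m => FY (WE Y t) Y D m - MY (WE Y t) Y D z m) ((n : ℤ) + h).toNat) =
      ∑ a ∈ Icc 1 x, (dk (t + 2) a : ℝ) * (if 1 ≤ (a : ℤ) + h ∧ (a : ℤ) + h ≤ H then
        (fun n => FY (WE Y t) Y D n - MY (WE Y t) Y D z n) ((a : ℤ) + h).toNat else 0) := by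
    apply sum_congr rfl
    intro n hn
    rw [mem_Icc] at hn
    congr 1
    have := hbd n hn.2
    split_ifs with hc
    · rfl
    · have h0 : ((n : ℤ) + h).toNat = 0 := by omega
      show FY (WE Y t) Y D ((n : ℤ) + h).toNat - MY (WE Y t) Y D z ((n : ℤ) + h).toNat = 0
      rw [h0, FY_zero, MY_zero, sub_zero]
  have a3 : |∑ n ∈ Icc 1 x, ((dk (t + 2) n : ℝ) - FY (WE Y t) Y D n) * MY (WE Y t) Y D z ((n : ℤ) + h).toNat| ≤
      (Y : ℝ) ^ (t + 2) * K ^ 2 := by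
    have := small_sum (Y ^ (t + 2)) x (fun n => ((dk (t + 2) n : ℝ) - FY (WE Y t) Y D n) * MY (WE Y t) Y D z ((n : ℤ) + h).toNat)
      (K ^ 2) (by positivity) (by
        intro n hn
        rw [mem_Icc] at hn
        show |((dk (t + 2) n : ℝ) - FY (WE Y t) Y D n) * MY (WE Y t) Y D z ((n : ℤ) + h).toNat| ≤ K ^ 2
        rw [abs_mul, pow_two]
        have := hbd n hn.2
        exact mul_le_mul (hDF n hn.1 (by omega)) (hM0 _ (by omega)) (abs_nonneg _) hK) (by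
        intro n hn hS
        rw [mem_Icc] at hn
        show ((dk (t + 2) n : ℝ) - FY (WE Y t) Y D n) * _ = 0
        rw [hDF0 n (by omega) hS, zero_mul])
    push_cast at this
    exact this
  have a4 : ∑ n ∈ Icc 1 x, (FY (WE Y t) Y D n - MY (WE Y t) Y D z n) * MY (WE Y t) Y D z ((n : ℤ) + h).toNat =
      ∑ a ∈ Icc 1 H, MY (WE Y t) Y D z a * (if 1 ≤ (a : ℤ) + -h ∧ (a : ℤ) + -h ≤ x then
        (fun n => FY (WE Y t) Y D n - MY (WE Y t) Y D z n) ((a : ℤ) + -h).toNat else 0) :=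
    (reindex' x H h hbd (fun m => MY (WE Y t) Y D z m) (fun n => FY (WE Y t) Y D n - MY (WE Y t) Y D z n) (MY_zero _ _ _ _)).symm
  have a5 : |∑ n ∈ Icc 1 x, MY (WE Y t) Y D z n * MY (WE Y t) Y D z ((n : ℤ) + h).toNat - Mn (WE Y t) Y D z x h| ≤
      200 * K ^ 2 * (z : ℝ) ^ 3 * (1 + Real.log z) ^ 2 := corr_Z (WE Y t) (WE_nonneg Y t) Y D z x hz h K hK hw
  rw [e, a2, a4]
  refine (abs_add_le _ _).trans ?_
  refine (add_le_add (abs_add_le _ _) le_rfl).trans ?_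
  refine (add_le_add (add_le_add (abs_add_le _ _) le_rfl) le_rfl).trans ?_
  refine (add_le_add (add_le_add (add_le_add (abs_add_le _ _) le_rfl) le_rfl) le_rfl).trans ?_
  linarith


lemma card_bd (s σ X g : ℝ) (hs : 0 ≤ s) (hσ : 0 ≤ σ) (hX : 0 < X) (hg : 0 ≤ g) (h : s * X ≤ 2 * (σ * Real.sqrt (g * s))) :
    s ≤ 4 * σ ^ 2 * g / X ^ 2 := by
  rcases hs.eq_or_lt with h0 | h0
  · rw [← h0]
    positivity
  · rw [le_div_iff₀ (by positivity)]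
    have h1 : (s * X) ^ 2 ≤ (2 * (σ * Real.sqrt (g * s))) ^ 2 := pow_le_pow_left₀ (by positivity) h 2
    have h2 : (2 * (σ * Real.sqrt (g * s))) ^ 2 = 4 * σ ^ 2 * g * s := by
      rw [mul_pow, mul_pow, Real.sq_sqrt (by positivity)]
      ring
    rw [h2] at h1
    have h3 : (s * X ^ 2) * s ≤ (4 * σ ^ 2 * g) * s := by
      refine le_trans (le_of_eq ?_) h1
      ring
    exact le_of_mul_le_mul_right h3 h0

open Classical in
/-- the number of the exceptional shifts -/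
theorem few_Y (t : ℕ) (ht : 1 ≤ t) (ν ε : ℝ) (hν0 : 0 < ν) (hν : ν ≤ 1 / (4 * (t + 2))) (hε : 0 < ε) : ∃ θ : ℝ, 0 < θ ∧
    ∃ N₀ : ℕ, ∀ N : ℕ, N₀ ≤ N → ∀ Y : ℕ, Pm t ν N Y →
    (((Icc (-(N : ℤ)) (N : ℤ)).filter (fun h : ℤ => ∃ x : ℕ, x ≤ N ∧ (N : ℝ) ^ (1 - θ) <
      |Dr (t + 2) x h - Mn (WE Y t) Y (2 * N / Y) Y x h|)).card : ℝ) ≤ (N : ℝ) ^ (1 - 2 * dl t ν + ε) := by
  obtain ⟨a, ha⟩ : ∃ a : ℝ, a = min (ε / 16) (ν / 4) := ⟨_, rfl⟩
  have ha0 : 0 < a := by rw [ha]; positivity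
  have ha1 : a ≤ ε / 16 := by rw [ha]; exact min_le_left _ _
  have ha2 : a ≤ ν / 4 := by rw [ha]; exact min_le_right _ _
  have ht0 : (1 : ℝ) ≤ t := by exact_mod_cast ht
  have hν1 : ν ≤ 1 / 12 := by
    refine hν.trans ?_
    apply div_le_div_of_nonneg_left (by norm_num) (by norm_num)
    linarith
  obtain ⟨κ, hκ⟩ : ∃ κ : ℝ, κ = a / 16 := ⟨_, rfl⟩
  have hκ0 : 0 < κ := by rw [hκ]; positivity
  obtain ⟨δ, hδ⟩ : ∃ δ : ℝ, δ = dl t ν := ⟨_, rfl⟩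
  have hdm := dl_mul t ν
  have hd3 := dl_le t ν hν0
  obtain ⟨hdp, _⟩ := dl_pos t ν hν
  rw [← hδ] at hdm hd3 hdp
  have h3δ : 3 * δ ≤ 1 - 3 * ν := by
    rw [hδ]
    unfold dl
    have : 1 / ((t : ℝ) + 2) ≤ 1 / 3 := by
      apply div_le_div_of_nonneg_left (by norm_num) (by norm_num)
      linarith
    linarith
  obtain ⟨n1, h1⟩ := pm_bounds t ν hν0 hν
  obtain ⟨n2, h2⟩ := sup_bd t ν a hν0 hν ha0
  obtain ⟨n3, h3⟩ := pt_bounds t κ hκ0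
  obtain ⟨n4, h4⟩ := pt_ww t κ hκ0
  obtain ⟨n6, h6⟩ := ev_pow 0 207 κ hκ0
  obtain ⟨n7, h7⟩ := ev_pow 1 3 κ hκ0
  obtain ⟨n8, h8⟩ := ev_log 1
  refine ⟨a / 2, by positivity, n1 + n2 + n3 + n4 + n6 + n7 + n8 + 2, fun N hN Y hpar => ?_⟩
  obtain ⟨_, hz3, hD2, hYt, _, _⟩ := h1 N (by omega) Y hpar
  have s2 := h2 N (by omega) Y hpar
  have s3 := h3 N (by omega)
  have s4 := h4 N (by omega)
  have a6 := h6 N (by omega)
  have a7 := h7 N (by omega)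
  have a8 := h8 N (by omega)
  rw [pow_zero, mul_one] at a6
  rw [pow_one] at a7
  have hN1 : 1 ≤ N := by omega
  have hN0 : (0 : ℝ) < N := by exact_mod_cast hN1
  have hNr : (1 : ℝ) ≤ N := by exact_mod_cast hN1
  have hY1 : 1 ≤ Y := by have := hpar.two; omega
  have hY0 : (0 : ℝ) < Y := by exact_mod_cast hY1
  obtain ⟨D, hD⟩ : ∃ D, D = 2 * N / Y := ⟨_, rfl⟩
  rw [← hD] at s2 hz3 hD2 ⊢
  rw [← hδ] at s2 ⊢
  obtain ⟨H, hH⟩ : ∃ H, H = 2 * N := ⟨_, rfl⟩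
  obtain ⟨K, hK⟩ : ∃ K : ℝ, K = (N : ℝ) ^ κ := ⟨_, rfl⟩
  rw [← hK] at a6 a7
  have hK1 : 1 ≤ K := by linarith
  have hK0 : 0 < K := by linarith
  have hlogz : 1 + Real.log Y ≤ K := by
    have g1 : (Y : ℝ) ≤ (N : ℝ) ^ 2 := by
      have g2 : (Y : ℝ) ≤ 2 * N := by exact_mod_cast hz3.trans hD2
      have g3 : (2 : ℝ) ≤ N := by exact_mod_cast (by omega : 2 ≤ N)
      nlinarith
    have g2 := Real.log_le_log hY0 g1
    rw [Real.log_pow] at g2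
    push_cast at g2
    linarith
  have hlogz0 : 0 ≤ 1 + Real.log Y := by have := Real.log_natCast_nonneg Y; linarith
  have hpt : ∀ n, 1 ≤ n → n ≤ H → (dk (t + 2) n : ℝ) ≤ K ∧ FY (WE Y t) Y D n ≤ K ∧ |MY (WE Y t) Y D Y n| ≤ K := by
    intro n hn1 hn2
    rw [hK]
    exact s3 Y D Y n hD2 (hz3.trans hD2) hn1 (by omega)
  have hww : ∀ q ∈ Icc 1 Y, ∀ n : ℕ, ww (WE Y t) Y D q n ≤ K / q := by
    intro q hq n
    rw [mem_Icc] at hq
    rw [hK]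
    exact s4 Y D q n hD2 hq.1 (by omega)
  have hYD : ∀ a n, n ≤ H → a * Y < n → a ≤ D := by
    intro a n hn ha
    rw [hD, Nat.le_div_iff_mul_le (by omega)]
    omega
  -- the grid
  obtain ⟨L, hL⟩ : ∃ L : ℕ, L = ⌈(N : ℝ) ^ (1 - a)⌉₊ := ⟨_, rfl⟩
  have hNL1 : 1 ≤ (N : ℝ) ^ (1 - a) := Real.one_le_rpow hNr (by linarith)
  have hL1 : (N : ℝ) ^ (1 - a) ≤ L := by rw [hL]; exact Nat.le_ceil _
  have hL2 : (L : ℝ) ≤ 2 * (N : ℝ) ^ (1 - a) := by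
    have := (Nat.ceil_lt_add_one (by positivity : 0 ≤ (N : ℝ) ^ (1 - a))).le
    rw [← hL] at this
    linarith
  have hLpos : 0 < L := by
    have : (1 : ℝ) ≤ L := hNL1.trans hL1
    exact_mod_cast this
  have hJ : ((N / L : ℕ) : ℝ) + 1 ≤ 2 * (N : ℝ) ^ a := by
    have g1 : ((N / L : ℕ) : ℝ) ≤ (N : ℝ) / L := Nat.cast_div_le
    have g2 : (N : ℝ) / L ≤ (N : ℝ) ^ a := by
      rw [div_le_iff₀ (by exact_mod_cast hLpos)]
      calc (N : ℝ) = (N : ℝ) ^ a * (N : ℝ) ^ (1 - a) := by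
            rw [← Real.rpow_add hN0]
            rw [show a + (1 - a) = 1 by ring, Real.rpow_one]
        _ ≤ _ := mul_le_mul_of_nonneg_left hL1 (by positivity)
    have g3 : 1 ≤ (N : ℝ) ^ a := Real.one_le_rpow hNr ha0.le
    linarith
  -- the two families of sums
  obtain ⟨f, hf⟩ : ∃ f : ℕ → ℝ, f = fun n => FY (WE Y t) Y D n - MY (WE Y t) Y D Y n := ⟨_, rfl⟩
  obtain ⟨T1, hT1⟩ : ∃ T1 : ℕ → ℤ → ℝ, T1 = fun (x : ℕ) (h : ℤ) => ∑ a ∈ Icc 1 x, (dk (t + 2) a : ℝ) *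
    (if 1 ≤ (a : ℤ) + h ∧ (a : ℤ) + h ≤ H then f ((a : ℤ) + h).toNat else 0) := ⟨_, rfl⟩
  obtain ⟨T2, hT2⟩ : ∃ T2 : ℕ → ℤ → ℝ, T2 = fun (x : ℕ) (h : ℤ) => ∑ a ∈ Icc 1 H, MY (WE Y t) Y D Y a *
    (if 1 ≤ (a : ℤ) + h ∧ (a : ℤ) + h ≤ x then f ((a : ℤ) + h).toNat else 0) := ⟨_, rfl⟩
  obtain ⟨σ, hσ⟩ : ∃ σ : ℝ, σ = (N : ℝ) ^ (1 - δ + a) := ⟨_, rfl⟩
  have hσ0 : 0 < σ := by rw [hσ]; positivity
  have hsup : ∀ A : ℕ, A ≤ 2 * N → ∀ α : ℝ, ‖∑ n ∈ Icc 1 A, ((f n : ℝ) : ℂ) * ee ((n : ℝ) * α)‖ ≤ σ := by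
    intro A hA α
    rw [hf, hσ]
    exact s2 A hA α
  have b1 : ∀ x : ℕ, x ≤ N → ∀ S : Finset ℤ, (∀ m ∈ S, |m| ≤ (N : ℤ)) →
      ∑ m ∈ S, |T1 x m| ≤ σ * Real.sqrt (2 * N * K ^ 2 * S.card) := by
    intro x hx S hS
    rw [hT1]
    exact first N hN1 S hS x H (by omega) (by omega) (fun a => (dk (t + 2) a : ℝ)) f K σ (by
      intro a ha
      rw [mem_Icc] at ha
      show |(dk (t + 2) a : ℝ)| ≤ _
      rw [abs_of_nonneg (Nat.cast_nonneg _)]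
      exact (hpt a ha.1 (by omega)).1) (hsup H (by omega))
  have b2 : ∀ x : ℕ, x ≤ N → ∀ S : Finset ℤ, (∀ m ∈ S, |m| ≤ (N : ℤ)) →
      ∑ m ∈ S, |T2 x m| ≤ σ * Real.sqrt (2 * N * K ^ 2 * S.card) := by
    intro x hx S hS
    rw [hT2]
    exact first N hN1 S hS H x (by omega) (by omega) (fun a => MY (WE Y t) Y D Y a) f K σ (by
      intro a ha
      rw [mem_Icc] at ha
      exact (hpt a ha.1 (by omega)).2.2) (hsup x (by omega))
  obtain ⟨Bd, hBd⟩ : ∃ Bd : ℕ → Finset ℤ, Bd = fun x => (Icc (-(N : ℤ)) (N : ℤ)).filter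
    (fun h => (N : ℝ) ^ (1 - a) < |T1 x h| + |T2 x (-h)|) := ⟨_, rfl⟩
  have hcard : ∀ x : ℕ, x ≤ N → ((Bd x).card : ℝ) ≤ 8 * K ^ 2 * (N : ℝ) ^ (1 - 2 * δ + 4 * a) := by
    intro x hx
    have hS : ∀ m ∈ Bd x, |m| ≤ (N : ℤ) := by
      intro m hm
      rw [hBd] at hm
      simp only [mem_filter, mem_Icc] at hm
      exact abs_le.2 hm.1
    have c1 := b1 x hx (Bd x) hS
    have hinj : Set.InjOn (fun h : ℤ => -h) (Bd x : Set ℤ) := fun u _ v _ huv => neg_injective huv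
    have c2 := b2 x hx ((Bd x).image (fun h => -h)) (by
      intro m hm
      rw [mem_image] at hm
      obtain ⟨u, hu, rfl⟩ := hm
      rw [abs_neg]
      exact hS u hu)
    rw [sum_image hinj, card_image_of_injOn hinj] at c2
    have c3 : ((Bd x).card : ℝ) * (N : ℝ) ^ (1 - a) ≤ ∑ m ∈ Bd x, (|T1 x m| + |T2 x (-m)|) := by
      rw [← nsmul_eq_mul, ← sum_const]
      apply sum_le_sum
      intro m hm
      rw [hBd] at hm
      simp only [mem_filter] at hm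
      exact hm.2.le
    rw [sum_add_distrib] at c3
    have c4 := card_bd ((Bd x).card : ℝ) σ ((N : ℝ) ^ (1 - a)) (2 * N * K ^ 2) (Nat.cast_nonneg _) hσ0.le (by positivity)
      (by positivity) (by linarith)
    refine c4.trans (le_of_eq ?_)
    have e1 : σ ^ 2 = (N : ℝ) ^ (2 * (1 - δ + a)) := by
      rw [hσ, ← Real.rpow_natCast, ← Real.rpow_mul hN0.le]
      congr 1
      push_cast
      ring
    have e2 : ((N : ℝ) ^ (1 - a)) ^ 2 = (N : ℝ) ^ (2 * (1 - a)) := by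
      rw [← Real.rpow_natCast, ← Real.rpow_mul hN0.le]
      congr 1
      push_cast
      ring
    rw [e1, e2, div_eq_iff (by positivity)]
    have e3 : 4 * (N : ℝ) ^ (2 * (1 - δ + a)) * (2 * N * K ^ 2) = 8 * K ^ 2 * ((N : ℝ) ^ (2 * (1 - δ + a)) * (N : ℝ) ^ (1 : ℝ)) := by
      rw [Real.rpow_one]; ring
    rw [e3, ← Real.rpow_add hN0, mul_assoc (8 * K ^ 2), ← Real.rpow_add hN0]
    congr 2
    ring
  -- all the exceptional shifts
  have hsub : (Icc (-(N : ℤ)) (N : ℤ)).filter (fun h : ℤ => ∃ x : ℕ, x ≤ N ∧ (N : ℝ) ^ (1 - a / 2) <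
      |Dr (t + 2) x h - Mn (WE Y t) Y D Y x h|) ⊆ (range (N / L + 1)).biUnion (fun j => Bd (j * L)) := by
    intro h hh
    rw [mem_filter, mem_Icc] at hh
    obtain ⟨hhN, x, hx, hbad⟩ := hh
    have hh1 : |h| ≤ (N : ℤ) := abs_le.2 hhN
    rw [mem_biUnion]
    by_contra hc
    push Not at hc
    apply absurd hbad
    push Not
    obtain ⟨j, hj⟩ : ∃ j, j = x / L := ⟨_, rfl⟩
    have hjL : j * L ≤ x := by rw [hj]; exact Nat.div_mul_le_self x L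
    have hxj : x < j * L + L := by
      rw [hj]
      have := Nat.lt_div_mul_add hLpos (a := x)
      exact this
    have hjJ : j < N / L + 1 := by
      rw [hj]
      exact Nat.lt_succ_of_le (Nat.div_le_div_right hx)
    have hTT : |T1 (j * L) h| + |T2 (j * L) (-h)| ≤ (N : ℝ) ^ (1 - a) := by
      have g1 := hc j (mem_range.2 hjJ)
      rw [hBd] at g1
      simp only [mem_filter, mem_Icc, not_and, not_lt] at g1
      exact g1 hhN
    have hd := decomp' t Y D Y (j * L) N H h K hK0.le hY1 (hjL.trans hx) hH hh1 hYD hpt hww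
    rw [hT1, hT2, hf] at hTT
    simp only at hTT
    have i1 := Dr_inc (t + 2) (j * L) x N h K hK0.le hjL hx hh1 (fun n g1 g2 => (hpt n g1 (by omega)).1)
    have i2 := Mn_inc (WE Y t) (WE_nonneg Y t) Y D Y (j * L) x h K hK0.le hjL hww
    have hxr : (x : ℝ) - ((j * L : ℕ) : ℝ) ≤ L := by
      have : (x : ℝ) < ((j * L : ℕ) : ℝ) + L := by exact_mod_cast hxj
      linarith
    have hNa : 0 < (N : ℝ) ^ (1 - a) := by positivity
    have hK23 : K ^ 2 ≤ K ^ 4 := pow_le_pow_right₀ hK1 (by norm_num)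
    have hK34 : K ^ 3 ≤ K ^ 4 := pow_le_pow_right₀ hK1 (by norm_num)
    have hK14 : 1 ≤ K ^ 4 := one_le_pow₀ hK1
    have i1' : |Dr (t + 2) x h - Dr (t + 2) (j * L) h| ≤ 2 * (N : ℝ) ^ (1 - a) * K ^ 4 := by
      refine i1.trans ?_
      exact mul_le_mul (hxr.trans hL2) hK23 (by positivity) (by positivity)
    have i2' : |Mn (WE Y t) Y D Y x h - Mn (WE Y t) Y D Y (j * L) h| ≤ 2 * (N : ℝ) ^ (1 - a) * K ^ 4 := by
      refine i2.trans ?_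
      calc ((x : ℝ) - ((j * L : ℕ) : ℝ)) * K ^ 2 * (1 + Real.log Y) ≤ (2 * (N : ℝ) ^ (1 - a)) * K ^ 2 * K := by
            apply mul_le_mul _ hlogz hlogz0 (by positivity)
            exact mul_le_mul_of_nonneg_right (hxr.trans hL2) (by positivity)
        _ = (2 * (N : ℝ) ^ (1 - a)) * K ^ 3 := by ring
        _ ≤ _ := mul_le_mul_of_nonneg_left hK34 (by positivity)
    have i3 : (Y : ℝ) ^ (t + 2) ≤ (N : ℝ) ^ (1 - a) := by
      refine hYt.trans (Real.rpow_le_rpow_of_exponent_le hNr ?_)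
      nlinarith
    have i4 : (Y : ℝ) ^ 3 ≤ (N : ℝ) ^ (1 - a) := by
      have hlow := hpar.low
      rw [← hδ] at hlow
      calc (Y : ℝ) ^ 3 ≤ ((N : ℝ) ^ δ) ^ 3 := pow_le_pow_left₀ hY0.le hlow 3
        _ = (N : ℝ) ^ (3 * δ) := by
            rw [← Real.rpow_natCast, ← Real.rpow_mul hN0.le]
            congr 1
            push_cast
            ring
        _ ≤ _ := Real.rpow_le_rpow_of_exponent_le hNr (by linarith)
    have i5 : 2 * (Y : ℝ) ^ (t + 2) * K ^ 2 ≤ 2 * (N : ℝ) ^ (1 - a) * K ^ 4 := by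
      apply mul_le_mul _ hK23 (by positivity) (by positivity)
      linarith
    have i6 : 200 * K ^ 2 * (Y : ℝ) ^ 3 * (1 + Real.log Y) ^ 2 ≤ 200 * (N : ℝ) ^ (1 - a) * K ^ 4 := by
      calc 200 * K ^ 2 * (Y : ℝ) ^ 3 * (1 + Real.log Y) ^ 2 ≤ 200 * K ^ 2 * (N : ℝ) ^ (1 - a) * K ^ 2 := by
            apply mul_le_mul _ (pow_le_pow_left₀ hlogz0 hlogz 2) (by positivity) (by positivity)
            exact mul_le_mul_of_nonneg_left i4 (by positivity)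
        _ = _ := by ring
    have e1 : Dr (t + 2) x h - Mn (WE Y t) Y D Y x h = (Dr (t + 2) x h - Dr (t + 2) (j * L) h) +
        (Dr (t + 2) (j * L) h - Mn (WE Y t) Y D Y (j * L) h) - (Mn (WE Y t) Y D Y x h - Mn (WE Y t) Y D Y (j * L) h) := by ring
    have i7 : |Dr (t + 2) x h - Mn (WE Y t) Y D Y x h| ≤ 2 * (N : ℝ) ^ (1 - a) * K ^ 4 +
        ((N : ℝ) ^ (1 - a) + (2 * (N : ℝ) ^ (1 - a) * K ^ 4 + 200 * (N : ℝ) ^ (1 - a) * K ^ 4)) + 2 * (N : ℝ) ^ (1 - a) * K ^ 4 := by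
      rw [e1]
      refine (abs_sub _ _).trans (add_le_add ((abs_add_le _ _).trans (add_le_add i1' ?_)) i2')
      refine hd.trans ?_
      linarith
    refine i7.trans ?_
    have i8 : (N : ℝ) ^ (1 - a) ≤ (N : ℝ) ^ (1 - a) * K ^ 4 := le_mul_of_one_le_right hNa.le hK14
    have i9 : 207 * ((N : ℝ) ^ (1 - a) * K ^ 4) ≤ (N : ℝ) ^ (1 - a / 2) := by
      calc 207 * ((N : ℝ) ^ (1 - a) * K ^ 4) ≤ K * ((N : ℝ) ^ (1 - a) * K ^ 4) := mul_le_mul_of_nonneg_right a6 (by positivity)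
        _ = (N : ℝ) ^ (1 - a) * K ^ 5 := by ring
        _ = (N : ℝ) ^ (1 - a) * (N : ℝ) ^ (κ * 5) := by
            rw [hK, ← Real.rpow_natCast ((N : ℝ) ^ κ), ← Real.rpow_mul hN0.le]
            norm_num
        _ = (N : ℝ) ^ (1 - a + κ * 5) := by rw [← Real.rpow_add hN0]
        _ ≤ _ := Real.rpow_le_rpow_of_exponent_le hNr (by rw [hκ]; linarith)
    linarith
  calc (((Icc (-(N : ℤ)) (N : ℤ)).filter (fun h : ℤ => ∃ x : ℕ, x ≤ N ∧ (N : ℝ) ^ (1 - a / 2) <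
      |Dr (t + 2) x h - Mn (WE Y t) Y D Y x h|)).card : ℝ) ≤ ((range (N / L + 1)).biUnion (fun j => Bd (j * L))).card := by
        exact_mod_cast card_le_card hsub
    _ ≤ ∑ j ∈ range (N / L + 1), ((Bd (j * L)).card : ℝ) := by
        exact_mod_cast card_biUnion_le
    _ ≤ ∑ _j ∈ range (N / L + 1), 8 * K ^ 2 * (N : ℝ) ^ (1 - 2 * δ + 4 * a) := by
        apply sum_le_sum
        intro j hj
        rw [mem_range] at hj
        exact hcard _ ((Nat.mul_le_mul_right L (by omega : j ≤ N / L)).trans (Nat.div_mul_le_self N L))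
    _ = (((N / L : ℕ) : ℝ) + 1) * (8 * K ^ 2 * (N : ℝ) ^ (1 - 2 * δ + 4 * a)) := by
        rw [sum_const, card_range, nsmul_eq_mul]
        push_cast
        ring
    _ ≤ (2 * (N : ℝ) ^ a) * (8 * K ^ 2 * (N : ℝ) ^ (1 - 2 * δ + 4 * a)) := mul_le_mul_of_nonneg_right hJ (by positivity)
    _ = 16 * K ^ 2 * ((N : ℝ) ^ a * (N : ℝ) ^ (1 - 2 * δ + 4 * a)) := by ring
    _ ≤ K * K ^ 2 * ((N : ℝ) ^ a * (N : ℝ) ^ (1 - 2 * δ + 4 * a)) := by
        apply mul_le_mul_of_nonneg_right _ (by positivity)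
        apply mul_le_mul_of_nonneg_right _ (by positivity)
        linarith
    _ = (N : ℝ) ^ (κ * 3 + (a + (1 - 2 * δ + 4 * a))) := by
        rw [← Real.rpow_add hN0, ← pow_succ', hK, ← Real.rpow_natCast ((N : ℝ) ^ κ), ← Real.rpow_mul hN0.le, ← Real.rpow_add hN0]
        norm_num
    _ ≤ _ := Real.rpow_le_rpow_of_exponent_le hNr (by rw [hκ]; linarith)

end Pool.Agent.Q148.DS
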