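import Pool.Agent.Q148.DS.A4

set_option autoImplicit false

/-! Divisor correlations with few exceptional shifts: from the weights to the polynomials (adapted from the starting
file `Pool.Agent.TH212.PS.P8`), and the final form. -/

namespace Pool.Agent.Q148.DS
open Finset Polynomial
open Pool.Agent.H807R2.Dav
open Pool.Agent.TH212.DV
open Pool.Agent.TH212.PS

/-- from the weights to the polynomials -/
theorem to_poly' (t : ℕ) (P : ℕ → ℝ[X]) (hP : HW t P) (ν : ℝ) (hν0 : 0 < ν) (hν : ν ≤ 1 / (4 * (t + 2))) :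
    ∃ κ₀ : ℝ, 0 < κ₀ ∧ ∀ κ : ℝ, 0 < κ → κ ≤ κ₀ →
    ∃ θ : ℝ, 0 < θ ∧ ∃ N₀ : ℕ, ∀ N : ℕ, N₀ ≤ N → ∀ Y z : ℕ, Pm t ν N Y → 1 ≤ z → (z : ℝ) ≤ 2 * (N : ℝ) ^ κ → z ≤ 2 * N / Y →
    ∀ x : ℕ, x ≤ N → ∀ h : ℤ, |h| ≤ N → |Mn (WE Y t) Y (2 * N / Y) z x h - Mp P z x h| ≤ (N : ℝ) ^ (1 - θ) := by
  obtain ⟨C, A, δ, hC, hA, hδ, hW⟩ := hP.app
  obtain ⟨ω, hω⟩ : ∃ ω : ℝ, ω = ((t : ℝ) + 2) * ν := ⟨_, rfl⟩
  have hω0 : 0 < ω := by rw [hω]; positivity
  refine ⟨min (δ / (8 * (A + 2))) (ω / 8), by positivity, fun κ hκ0 hκm => ?_⟩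
  have hκA := hκm.trans (min_le_left _ _)
  have hκω := hκm.trans (min_le_right _ _)
  have hκA' : κ * (A + 2) ≤ δ / 8 := by
    rw [le_div_iff₀ (by positivity)] at hκA
    linarith
  obtain ⟨ε, hε⟩ : ∃ ε : ℝ, ε = min (δ / 16) (min (ω / 16) (1 / 32)) := ⟨_, rfl⟩
  have hε0 : 0 < ε := by rw [hε]; positivity
  have hε1 : ε ≤ δ / 16 := by rw [hε]; exact min_le_left _ _
  have hε2 : ε ≤ 1 / 32 := by rw [hε]; exact (min_le_right _ _).trans (min_le_right _ _)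
  have hε3 : ε ≤ ω / 16 := by rw [hε]; exact (min_le_right _ _).trans (min_le_left _ _)
  obtain ⟨n1, h1⟩ := pm_bounds t ν hν0 hν
  obtain ⟨n2, h2⟩ := G_le t P hP ε hε0
  obtain ⟨n3, h3⟩ := pt_ww t ε hε0
  obtain ⟨n4, h4⟩ := ev_pow 0 (2 ^ (A + 2) * (2 * C * 2 ^ ((t + 2 : ℕ) * δ)) + 32) ε hε0
  refine ⟨ε, hε0, n1 + n2 + n3 + n4 + 2, fun N hN Y z hpar hz1 hz2 hz3 x hx h hh => ?_⟩
  obtain ⟨_, _, hD2, hYt, hYl, hYu⟩ := h1 N (by omega) Y hpar
  rw [← hω] at hYt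
  have hY2 : 2 ≤ Y := hpar.two
  have hY1 : 1 ≤ Y := by omega
  have a2 := h2 N (by omega)
  have a3 := h3 N (by omega)
  have a4 := h4 N (by omega)
  rw [pow_zero, mul_one] at a4
  have hN0 : (0 : ℝ) < N := by exact_mod_cast (by omega : 0 < N)
  have hN1 : (1 : ℝ) ≤ N := by exact_mod_cast (by omega : 1 ≤ N)
  have hz0 : (0 : ℝ) < z := by exact_mod_cast hz1
  have hhb := abs_le.1 hh
  obtain ⟨D, hD⟩ : ∃ D, D = 2 * N / Y := ⟨_, rfl⟩
  rw [← hD] at hz3 hD2 ⊢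
  have hYD : ∀ a n, n ≤ 2 * N → a * Y < n → a ≤ D := by
    intro a n hn ha
    rw [hD, Nat.le_div_iff_mul_le (by omega)]
    omega
  obtain ⟨S, hS⟩ : ∃ S : ℕ, S = 2 * Y ^ (t + 2) := ⟨_, rfl⟩
  obtain ⟨K, hK⟩ : ∃ K : ℝ, K = (N : ℝ) ^ ε := ⟨_, rfl⟩
  have hK0 : 0 < K := by rw [hK]; positivity
  have hK1 : 1 ≤ K := by rw [hK]; exact Real.one_le_rpow hN1 hε0.le
  -- the bounds for the two functions
  have hw : ∀ q n : ℕ, 1 ≤ q → q ≤ z → 0 ≤ ww (WE Y t) Y D q n ∧ ww (WE Y t) Y D q n ≤ K := by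
    intro q n hq hqz
    refine ⟨ww_nonneg _ (WE_nonneg Y t) _ _ _ _, ?_⟩
    rw [hK]
    exact (a3 Y D q n hD2 hq (by omega)).trans (div_le_self (by positivity) (by exact_mod_cast hq))
  have hg : ∀ q n : ℕ, 1 ≤ q → 1 ≤ n → n ≤ 2 * N → |(P q).eval (Real.log n)| ≤ K := by
    intro q n hq hn hn2
    rw [hK]
    refine (a2 q n hq hn hn2).trans ?_
    have : (q : ℝ) ^ (ε - 1) ≤ 1 := Real.rpow_le_one_of_one_le_of_nonpos (by exact_mod_cast hq) (by linarith)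
    exact mul_le_of_le_one_right (by positivity) this
  -- the comparison for large arguments
  have hS2N : 2 * N ≤ (Y + 1) ^ (4 * (t + 2)) := hYu
  have hSlow : (N : ℝ) ^ (1 / 2 : ℝ) ≤ 2 ^ (t + 2) * (S : ℝ) := by
    refine hYl.trans ?_
    rw [hS]
    push_cast
    have : (0 : ℝ) ≤ 2 ^ (t + 2) * (Y : ℝ) ^ (t + 2) := by positivity
    nlinarith
  have hSup : (S : ℝ) ≤ 2 * (N : ℝ) ^ (1 - ω) := by
    rw [hS]
    push_cast
    linarith
  have hS0 : 0 < S := by rw [hS]; positivity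
  have hSr0 : (0 : ℝ) < S := by exact_mod_cast hS0
  obtain ⟨e₁, he₁⟩ : ∃ e₁ : ℝ, e₁ = C * (z : ℝ) ^ A * (2 ^ ((t + 2 : ℕ) * δ) * (N : ℝ) ^ (-(δ / 2))) := ⟨_, rfl⟩
  have he₁0 : 0 ≤ e₁ := by rw [he₁]; positivity
  have happ : ∀ q n : ℕ, 1 ≤ q → q ≤ z → S ≤ n → n ≤ 2 * N → |ww (WE Y t) Y D q n - (P q).eval (Real.log n)| ≤ e₁ := by
    intro q n hq hqz hn hn2
    rw [ww_eq t Y D q n hY1 (fun a ha => hYD a n hn2 ha)]
    refine (hW q Y n hq hY2 (by rw [← hS]; exact hn) (hn2.trans hS2N)).trans ?_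
    rw [he₁]
    have g1 : (q : ℝ) ^ A ≤ (z : ℝ) ^ A := Real.rpow_le_rpow (Nat.cast_nonneg _) (by exact_mod_cast hqz) hA
    have g2 : (n : ℝ) ^ (-δ) ≤ 2 ^ ((t + 2 : ℕ) * δ) * (N : ℝ) ^ (-(δ / 2)) := by
      have g3 : (n : ℝ) ^ (-δ) ≤ (S : ℝ) ^ (-δ) := Real.rpow_le_rpow_of_nonpos hSr0 (by exact_mod_cast hn) (by linarith)
      have g4 : (S : ℝ) ^ (-δ) ≤ ((N : ℝ) ^ (1 / 2 : ℝ) / 2 ^ (t + 2)) ^ (-δ) := by
        apply Real.rpow_le_rpow_of_nonpos (by positivity) _ (by linarith)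
        rw [div_le_iff₀ (by positivity)]
        linarith
      refine (g3.trans g4).trans (le_of_eq ?_)
      rw [Real.div_rpow (by positivity) (by positivity), ← Real.rpow_mul hN0.le, ← Real.rpow_natCast 2 (t + 2), ← Real.rpow_mul (by norm_num)]
      rw [div_eq_mul_inv, ← Real.rpow_neg (by norm_num), mul_comm]
      congr 2
      · ring
      · ring
    exact mul_le_mul (mul_le_mul_of_nonneg_left g1 hC) g2 (by positivity) (by positivity)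
  -- the difference for each modulus
  have hq : ∀ q ∈ Icc 1 z, |(cz q h : ℝ) * ∑ n ∈ Icc 1 x, ww (WE Y t) Y D q n * ww (WE Y t) Y D q ((n : ℤ) + h).toNat -
      (cz q h : ℝ) * ∑ n ∈ Icc 1 x, (if 1 ≤ (n : ℤ) + h then
        (P q).eval (Real.log n) * (P q).eval (Real.log (((n : ℤ) + h).toNat : ℕ)) else 0)| ≤
      z * (N * (2 * e₁ * K) + 4 * S * K ^ 2) := by
    intro q hq
    rw [mem_Icc] at hq
    rw [← mul_sub, abs_mul]
    have hcz : |(cz q h : ℝ)| ≤ z := (abs_cz_le q hq.1 h).trans (by exact_mod_cast hq.2)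
    apply mul_le_mul hcz _ (abs_nonneg _) hz0.le
    rw [← sum_sub_distrib]
    refine (abs_sum_le_sum_abs _ _).trans ?_
    have k1 : ∀ n ∈ Icc 1 x, |ww (WE Y t) Y D q n * ww (WE Y t) Y D q ((n : ℤ) + h).toNat -
        (if 1 ≤ (n : ℤ) + h then (P q).eval (Real.log n) * (P q).eval (Real.log (((n : ℤ) + h).toNat : ℕ)) else 0)| ≤
        2 * e₁ * K + (if n < S then 2 * K ^ 2 else 0) + (if 1 ≤ (n : ℤ) + h ∧ (n : ℤ) + h < S then 2 * K ^ 2 else 0) := by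
      intro n hn
      rw [mem_Icc] at hn
      have hnN : n ≤ 2 * N := by omega
      by_cases hc : 1 ≤ (n : ℤ) + h
      · rw [if_pos hc]
        obtain ⟨m, hm⟩ : ∃ m : ℕ, m = ((n : ℤ) + h).toNat := ⟨_, rfl⟩
        have hm1 : 1 ≤ m := by omega
        have hm2 : m ≤ 2 * N := by omega
        have hmz : (m : ℤ) = (n : ℤ) + h := by omega
        rw [← hm]
        obtain ⟨w1, w2⟩ := hw q n hq.1 hq.2
        obtain ⟨w3, w4⟩ := hw q m hq.1 hq.2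
        have g1 := hg q n hq.1 hn.1 hnN
        have g2 := hg q m hq.1 hm1 hm2
        have htriv : |ww (WE Y t) Y D q n * ww (WE Y t) Y D q m - (P q).eval (Real.log n) * (P q).eval (Real.log m)| ≤ 2 * K ^ 2 := by
          refine (abs_sub _ _).trans ?_
          rw [abs_mul, abs_mul, abs_of_nonneg w1, abs_of_nonneg w3]
          have k2 := mul_le_mul w2 w4 w3 hK0.le
          have k3 := mul_le_mul g1 g2 (abs_nonneg _) hK0.le
          nlinarith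
        by_cases c1 : n < S
        · rw [if_pos c1]
          have : 0 ≤ (if 1 ≤ (n : ℤ) + h ∧ (n : ℤ) + h < S then 2 * K ^ 2 else 0) := by split_ifs <;> positivity
          have k4 : 0 ≤ 2 * e₁ * K := by positivity
          linarith
        · by_cases c2 : 1 ≤ (n : ℤ) + h ∧ (n : ℤ) + h < S
          · rw [if_pos c2, if_neg c1]
            have k4 : 0 ≤ 2 * e₁ * K := by positivity
            linarith
          · rw [if_neg c1, if_neg c2, add_zero, add_zero]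
            have k5 := happ q n hq.1 hq.2 (by omega) hnN
            have k6 := happ q m hq.1 hq.2 (by
              by_contra hcc
              apply c2
              omega) hm2
            have e3 : ww (WE Y t) Y D q n * ww (WE Y t) Y D q m - (P q).eval (Real.log n) * (P q).eval (Real.log m) =
                (ww (WE Y t) Y D q n - (P q).eval (Real.log n)) * ww (WE Y t) Y D q m +
                (P q).eval (Real.log n) * (ww (WE Y t) Y D q m - (P q).eval (Real.log m)) := by ring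
            rw [e3]
            refine (abs_add_le _ _).trans ?_
            rw [abs_mul, abs_mul, abs_of_nonneg w3]
            have k7 := mul_le_mul k5 w4 w3 he₁0
            have k8 := mul_le_mul g1 k6 (abs_nonneg _) hK0.le
            nlinarith
      · rw [if_neg hc, sub_zero, Int.toNat_of_nonpos (by omega), ww_zero, mul_zero, abs_zero]
        have k1 : 0 ≤ (if n < S then 2 * K ^ 2 else 0) := by split_ifs <;> positivity
        have k2 : 0 ≤ (if 1 ≤ (n : ℤ) + h ∧ (n : ℤ) + h < S then 2 * K ^ 2 else 0) := by split_ifs <;> positivity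
        have k4 : 0 ≤ 2 * e₁ * K := by positivity
        linarith
    refine (sum_le_sum k1).trans ?_
    rw [sum_add_distrib, sum_add_distrib, sum_const, Nat.card_Icc, nsmul_eq_mul, Nat.add_sub_cancel, ← sum_filter, ← sum_filter,
      sum_const, sum_const, nsmul_eq_mul, nsmul_eq_mul]
    have c1 : (((Icc 1 x).filter (fun n => n < S)).card : ℝ) ≤ S := by
      have : ((Icc 1 x).filter (fun n => n < S)).card ≤ (range S).card := card_le_card (by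
        intro n hn
        rw [mem_filter] at hn
        exact mem_range.2 hn.2)
      rw [card_range] at this
      exact_mod_cast this
    have c2 : (((Icc 1 x).filter (fun n : ℕ => 1 ≤ (n : ℤ) + h ∧ (n : ℤ) + h < S)).card : ℝ) ≤ S := by
      have : ((Icc 1 x).filter (fun n : ℕ => 1 ≤ (n : ℤ) + h ∧ (n : ℤ) + h < S)).card ≤ (range S).card := by
        apply card_le_card_of_injOn (fun n : ℕ => ((n : ℤ) + h).toNat)
        · intro n hn
          rw [mem_coe, mem_filter] at hn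
          rw [mem_coe, mem_range]
          show ((n : ℤ) + h).toNat < S
          omega
        · intro a ha b hb hab
          rw [mem_coe, mem_filter] at ha hb
          simp only at hab
          omega
      rw [card_range] at this
      exact_mod_cast this
    have hxr : (x : ℝ) ≤ N := by exact_mod_cast hx
    have d1 : (x : ℝ) * (2 * e₁ * K) ≤ N * (2 * e₁ * K) := mul_le_mul_of_nonneg_right hxr (by positivity)
    have d2 := mul_le_mul_of_nonneg_right c1 (by positivity : 0 ≤ 2 * K ^ 2)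
    have d3 := mul_le_mul_of_nonneg_right c2 (by positivity : 0 ≤ 2 * K ^ 2)
    linarith
  unfold Mn Mp
  rw [← sum_sub_distrib]
  refine (abs_sum_le_sum_abs _ _).trans ((sum_le_sum hq).trans ?_)
  rw [sum_const, Nat.card_Icc, nsmul_eq_mul, Nat.add_sub_cancel]
  -- the final estimate
  have f1 : (z : ℝ) ^ 2 * (N * (2 * e₁ * K)) ≤ (2 ^ (A + 2) * (2 * C * 2 ^ ((t + 2 : ℕ) * δ))) * (N : ℝ) ^ (1 - 3 * ε) := by
    have g1 : (z : ℝ) ^ 2 * (z : ℝ) ^ A ≤ 2 ^ (A + 2) * (N : ℝ) ^ (δ / 8) := by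
      calc (z : ℝ) ^ 2 * (z : ℝ) ^ A = (z : ℝ) ^ (A + 2) := by
            rw [Real.rpow_add hz0, mul_comm]
            norm_num
        _ ≤ (2 * (N : ℝ) ^ κ) ^ (A + 2) := Real.rpow_le_rpow hz0.le hz2 (by positivity)
        _ = 2 ^ (A + 2) * (N : ℝ) ^ (κ * (A + 2)) := by rw [Real.mul_rpow (by norm_num) (by positivity), ← Real.rpow_mul hN0.le]
        _ ≤ _ := by
            apply mul_le_mul_of_nonneg_left _ (by positivity)
            exact Real.rpow_le_rpow_of_exponent_le hN1 hκA'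
    have g2 : (N : ℝ) ^ (δ / 8) * (N * (N : ℝ) ^ (-(δ / 2)) * K) ≤ (N : ℝ) ^ (1 - 3 * ε) := by
      rw [hK]
      calc (N : ℝ) ^ (δ / 8) * (N * (N : ℝ) ^ (-(δ / 2)) * (N : ℝ) ^ ε) =
            (N : ℝ) ^ (δ / 8) * ((N : ℝ) ^ (1 : ℝ) * (N : ℝ) ^ (-(δ / 2)) * (N : ℝ) ^ ε) := by rw [Real.rpow_one]
        _ = (N : ℝ) ^ (δ / 8 + (1 + -(δ / 2) + ε)) := by
            rw [← Real.rpow_add hN0, ← Real.rpow_add hN0, ← Real.rpow_add hN0]
        _ ≤ _ := Real.rpow_le_rpow_of_exponent_le hN1 (by linarith)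
    calc (z : ℝ) ^ 2 * (N * (2 * e₁ * K)) = (2 * C * 2 ^ ((t + 2 : ℕ) * δ)) * (((z : ℝ) ^ 2 * (z : ℝ) ^ A) * (N * (N : ℝ) ^ (-(δ / 2)) * K)) := by
          rw [he₁]; ring
      _ ≤ (2 * C * 2 ^ ((t + 2 : ℕ) * δ)) * ((2 ^ (A + 2) * (N : ℝ) ^ (δ / 8)) * (N * (N : ℝ) ^ (-(δ / 2)) * K)) := by
          apply mul_le_mul_of_nonneg_left _ (by positivity)
          exact mul_le_mul_of_nonneg_right g1 (by positivity)
      _ = (2 ^ (A + 2) * (2 * C * 2 ^ ((t + 2 : ℕ) * δ))) * ((N : ℝ) ^ (δ / 8) * (N * (N : ℝ) ^ (-(δ / 2)) * K)) := by ring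
      _ ≤ _ := mul_le_mul_of_nonneg_left g2 (by positivity)
  have f2 : (z : ℝ) ^ 2 * (4 * S * K ^ 2) ≤ 32 * (N : ℝ) ^ (1 - 3 * ε) := by
    have g1 : (z : ℝ) ^ 2 ≤ 4 * (N : ℝ) ^ (2 * κ) := by
      calc (z : ℝ) ^ 2 ≤ (2 * (N : ℝ) ^ κ) ^ 2 := pow_le_pow_left₀ hz0.le hz2 2
        _ = 4 * ((N : ℝ) ^ κ * (N : ℝ) ^ κ) := by ring
        _ = _ := by rw [← Real.rpow_add hN0]; congr 2; ring
    calc (z : ℝ) ^ 2 * (4 * S * K ^ 2) ≤ (4 * (N : ℝ) ^ (2 * κ)) * (4 * (2 * (N : ℝ) ^ (1 - ω)) * K ^ 2) := by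
          apply mul_le_mul g1 _ (by positivity) (by positivity)
          apply mul_le_mul_of_nonneg_right _ (by positivity)
          linarith
      _ = 32 * ((N : ℝ) ^ (2 * κ) * (N : ℝ) ^ (1 - ω) * (K * K)) := by ring
      _ = 32 * (N : ℝ) ^ (2 * κ + (1 - ω) + (ε + ε)) := by
          rw [hK, ← Real.rpow_add hN0, ← Real.rpow_add hN0, ← Real.rpow_add hN0]
      _ ≤ _ := by
          apply mul_le_mul_of_nonneg_left _ (by norm_num)
          exact Real.rpow_le_rpow_of_exponent_le hN1 (by linarith)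
  calc (z : ℝ) * (z * (N * (2 * e₁ * K) + 4 * S * K ^ 2)) = (z : ℝ) ^ 2 * (N * (2 * e₁ * K)) + (z : ℝ) ^ 2 * (4 * S * K ^ 2) := by ring
    _ ≤ (2 ^ (A + 2) * (2 * C * 2 ^ ((t + 2 : ℕ) * δ)) + 32) * (N : ℝ) ^ (1 - 3 * ε) := by linarith
    _ ≤ K * (N : ℝ) ^ (1 - 3 * ε) := by
        apply mul_le_mul_of_nonneg_right _ (by positivity)
        rw [hK]
        exact a4
    _ = (N : ℝ) ^ (ε + (1 - 3 * ε)) := by rw [hK, ← Real.rpow_add hN0]
    _ ≤ _ := Real.rpow_le_rpow_of_exponent_le hN1 (by linarith)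


/-- a long main term and a short one -/
theorem Mn_cut (t : ℕ) (ν κ : ℝ) (hν0 : 0 < ν) (hν : ν ≤ 1 / (4 * (t + 2))) (hκ : 0 < κ) : ∃ N₀ : ℕ, ∀ N : ℕ, N₀ ≤ N →
    ∀ Y z : ℕ, Pm t ν N Y → (N : ℝ) ^ κ ≤ z → z ≤ Y → ∀ x : ℕ, x ≤ N → ∀ h : ℤ, h ≠ 0 → |h| ≤ N →
    |Mn (WE Y t) Y (2 * N / Y) Y x h - Mn (WE Y t) Y (2 * N / Y) z x h| ≤ (N : ℝ) ^ (1 - κ / 2) := by
  obtain ⟨ε, hε⟩ : ∃ ε : ℝ, ε = κ / 8 := ⟨_, rfl⟩
  have hε0 : 0 < ε := by rw [hε]; positivity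
  obtain ⟨n1, h1⟩ := pm_bounds t ν hν0 hν
  obtain ⟨n2, h2⟩ := pt_dk 2 ε hε0
  obtain ⟨n3, h3⟩ := pt_ww t ε hε0
  obtain ⟨n7, h7⟩ := ev_pow 1 3 ε hε0
  obtain ⟨n8, h8⟩ := ev_log 1
  refine ⟨n1 + n2 + n3 + n7 + n8 + 2, fun N hN Y z hpar hz hzY x hx h hh0 hh => ?_⟩
  obtain ⟨_, hYD, hD2, _, _, _⟩ := h1 N (by omega) Y hpar
  have s3 := h3 N (by omega)
  have a7 := h7 N (by omega)
  have a8 := h8 N (by omega)
  rw [pow_one] at a7
  have hN1 : 1 ≤ N := by omega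
  have hN0 : (0 : ℝ) < N := by exact_mod_cast hN1
  have hNr : (1 : ℝ) ≤ N := by exact_mod_cast hN1
  have hY1 : 1 ≤ Y := by have := hpar.two; omega
  have hY0 : (0 : ℝ) < Y := by exact_mod_cast hY1
  have hNκ : 0 < (N : ℝ) ^ κ := Real.rpow_pos_of_pos hN0 _
  have hz0 : (0 : ℝ) < z := by linarith
  obtain ⟨D, hD⟩ : ∃ D, D = 2 * N / Y := ⟨_, rfl⟩
  rw [← hD] at hYD hD2 ⊢
  obtain ⟨K, hK⟩ : ∃ K : ℝ, K = (N : ℝ) ^ ε := ⟨_, rfl⟩
  rw [← hK] at a7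
  have hK0 : 0 < K := by rw [hK]; positivity
  obtain ⟨H, hH⟩ : ∃ H : ℕ, H = h.natAbs := ⟨_, rfl⟩
  have hH1 : 1 ≤ H := by omega
  have hHN : H ≤ N := by
    have g : ((h.natAbs : ℕ) : ℤ) ≤ N := by rw [Int.natCast_natAbs]; exact hh
    omega
  have hczH : ∀ q, cz q h = cz q (H : ℤ) := fun q => by rw [hH]; exact cz_natAbs q h
  have a2 := h2 N (by omega) H hH1 (by omega)
  rw [← hK, tau_dk] at a2
  have hlogz : 1 + Real.log Y ≤ K := by
    have g1 : (Y : ℝ) ≤ (N : ℝ) ^ 2 := by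
      have g2 : (Y : ℝ) ≤ 2 * N := by exact_mod_cast hYD.trans hD2
      have g3 : (2 : ℝ) ≤ N := by exact_mod_cast (by omega : 2 ≤ N)
      nlinarith
    have g2 := Real.log_le_log hY0 g1
    rw [Real.log_pow] at g2
    push_cast at g2
    linarith
  have hlogz0 : 0 ≤ 1 + Real.log Y := by have := Real.log_natCast_nonneg Y; linarith
  have hww : ∀ q n : ℕ, 1 ≤ q → q ≤ Y → ww (WE Y t) Y D q n ≤ K / q := by
    intro q n hq1 hq2
    rw [hK]
    exact s3 Y D q n hD2 hq1 (by omega)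
  have e1 : Icc 1 Y = Icc 1 z ∪ Ioc z Y := by
    ext q
    rw [mem_union, mem_Icc, mem_Icc, mem_Ioc]
    omega
  have e2 : Disjoint (Icc 1 z) (Ioc z Y) := by
    rw [disjoint_left]
    intro n h2 h3
    rw [mem_Icc] at h2
    rw [mem_Ioc] at h3
    omega
  have e3 : Mn (WE Y t) Y D Y x h - Mn (WE Y t) Y D z x h =
      ∑ q ∈ Ioc z Y, (cz q h : ℝ) * ∑ n ∈ Icc 1 x, ww (WE Y t) Y D q n * ww (WE Y t) Y D q ((n : ℤ) + h).toNat := by
    unfold Mn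
    rw [e1, sum_union e2, add_sub_cancel_left]
  rw [e3]
  refine (abs_sum_le_sum_abs _ _).trans ?_
  have e4 : ∀ q ∈ Ioc z Y, |(cz q h : ℝ) * ∑ n ∈ Icc 1 x, ww (WE Y t) Y D q n * ww (WE Y t) Y D q ((n : ℤ) + h).toNat| ≤
      N * K ^ 2 / z * (1 / (q : ℝ) * |(cz q (H : ℤ) : ℝ)|) := by
    intro q hq
    rw [mem_Ioc] at hq
    have hq1 : 1 ≤ q := by omega
    have hq0 : (0 : ℝ) < q := by exact_mod_cast hq1
    have hzq : (z : ℝ) ≤ q := by exact_mod_cast hq.1.le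
    rw [abs_mul, hczH]
    have g1 : |∑ n ∈ Icc 1 x, ww (WE Y t) Y D q n * ww (WE Y t) Y D q ((n : ℤ) + h).toNat| ≤ N * (K / q * (K / q)) := by
      refine (abs_sum_le_sum_abs _ _).trans ?_
      have g2 : ∀ n ∈ Icc 1 x, |ww (WE Y t) Y D q n * ww (WE Y t) Y D q ((n : ℤ) + h).toNat| ≤ K / q * (K / q) := by
        intro n _
        rw [abs_mul, abs_of_nonneg (ww_nonneg _ (WE_nonneg Y t) _ _ _ _), abs_of_nonneg (ww_nonneg _ (WE_nonneg Y t) _ _ _ _)]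
        exact mul_le_mul (hww q _ hq1 hq.2) (hww q _ hq1 hq.2) (ww_nonneg _ (WE_nonneg Y t) _ _ _ _) (by positivity)
      refine (sum_le_sum g2).trans ?_
      rw [sum_const, Nat.card_Icc, nsmul_eq_mul, Nat.add_sub_cancel]
      exact mul_le_mul_of_nonneg_right (by exact_mod_cast hx) (by positivity)
    calc |(cz q (H : ℤ) : ℝ)| * |∑ n ∈ Icc 1 x, ww (WE Y t) Y D q n * ww (WE Y t) Y D q ((n : ℤ) + h).toNat| ≤
          |(cz q (H : ℤ) : ℝ)| * (N * (K / q * (K / q))) := mul_le_mul_of_nonneg_left g1 (abs_nonneg _)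
      _ = N * K ^ 2 / q * (1 / (q : ℝ) * |(cz q (H : ℤ) : ℝ)|) := by field_simp
      _ ≤ _ := by
          apply mul_le_mul_of_nonneg_right _ (by positivity)
          exact div_le_div_of_nonneg_left (by positivity) hz0 hzq
  refine (sum_le_sum e4).trans ?_
  rw [← mul_sum]
  have e5 : ∑ q ∈ Ioc z Y, 1 / (q : ℝ) * |(cz q (H : ℤ) : ℝ)| ≤ K * K := by
    calc ∑ q ∈ Ioc z Y, 1 / (q : ℝ) * |(cz q (H : ℤ) : ℝ)| ≤ ∑ q ∈ Icc 1 Y, 1 / (q : ℝ) * |(cz q (H : ℤ) : ℝ)| := by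
          apply sum_le_sum_of_subset_of_nonneg
          · intro q hq
            rw [mem_Ioc] at hq
            rw [mem_Icc]
            omega
          · intro q _ _
            positivity
      _ ≤ (H.divisors.card : ℝ) * (1 + Real.log Y) := cz_inv_sum Y H hH1
      _ ≤ K * K := mul_le_mul a2 hlogz hlogz0 hK0.le
  calc (N : ℝ) * K ^ 2 / z * ∑ q ∈ Ioc z Y, 1 / (q : ℝ) * |(cz q (H : ℤ) : ℝ)| ≤ N * K ^ 2 / z * (K * K) :=
        mul_le_mul_of_nonneg_left e5 (by positivity)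
    _ ≤ N * K ^ 2 / (N : ℝ) ^ κ * (K * K) := by
        apply mul_le_mul_of_nonneg_right _ (by positivity)
        exact div_le_div_of_nonneg_left (by positivity) hNκ hz
    _ = (N : ℝ) ^ (1 : ℝ) * (N : ℝ) ^ (-κ) * K ^ 4 := by
        rw [Real.rpow_one, Real.rpow_neg hN0.le]
        ring
    _ = (N : ℝ) ^ (1 + -κ + ε * 4) := by
        rw [hK, ← Real.rpow_natCast ((N : ℝ) ^ ε), ← Real.rpow_mul hN0.le, ← Real.rpow_add hN0, ← Real.rpow_add hN0]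
        norm_num
    _ = _ := by rw [hε]; congr 1; ring

/-- the long main term and the complete one -/
theorem main_term (t : ℕ) (P : ℕ → ℝ[X]) (hP : HW t P) (ν : ℝ) (hν0 : 0 < ν) (hν : ν ≤ 1 / (4 * (t + 2))) : ∃ θ : ℝ, 0 < θ ∧
    ∃ N₀ : ℕ, ∀ N : ℕ, N₀ ≤ N → ∀ Y : ℕ, Pm t ν N Y → ∀ x : ℕ, x ≤ N → ∀ h : ℤ, h ≠ 0 → |h| ≤ N →
    |Mn (WE Y t) Y (2 * N / Y) Y x h - Mf P x h| ≤ (N : ℝ) ^ (1 - θ) := by
  obtain ⟨κ₀, hκ₀, hto⟩ := to_poly' t P hP ν hν0 hν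
  obtain ⟨hd, _⟩ := dl_pos t ν hν
  obtain ⟨κ, hκ⟩ : ∃ κ : ℝ, κ = min κ₀ (min (dl t ν / 2) 1) := ⟨_, rfl⟩
  have hκ0 : 0 < κ := by rw [hκ]; positivity
  have hκ1 : κ ≤ κ₀ := by rw [hκ]; exact min_le_left _ _
  have hκ2 : κ ≤ dl t ν / 2 := by rw [hκ]; exact (min_le_right _ _).trans (min_le_left _ _)
  have hκ3 : κ ≤ 1 := by rw [hκ]; exact (min_le_right _ _).trans (min_le_right _ _)
  obtain ⟨θ, hθ, n1, h1⟩ := hto κ hκ0 hκ1
  obtain ⟨n2, h2⟩ := Mn_cut t ν κ hν0 hν hκ0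
  obtain ⟨n3, h3⟩ := complete t P hP κ hκ0 hκ3
  obtain ⟨n4, h4⟩ := pm_bounds t ν hν0 hν
  obtain ⟨θ', hθ'⟩ : ∃ θ' : ℝ, θ' = min θ (κ / 8) := ⟨_, rfl⟩
  have hθ'0 : 0 < θ' := by rw [hθ']; positivity
  have hθ'1 : θ' ≤ θ := by rw [hθ']; exact min_le_left _ _
  have hθ'2 : θ' ≤ κ / 8 := by rw [hθ']; exact min_le_right _ _
  obtain ⟨n5, h5⟩ := ev_pow 0 3 (θ' / 2) (by positivity)
  obtain ⟨n6, h6⟩ := ev_pow 0 4 (dl t ν / 2) (by positivity)
  refine ⟨θ' / 2, by positivity, n1 + n2 + n3 + n4 + n5 + n6 + 2, fun N hN Y hpar x hx h hh0 hh => ?_⟩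
  obtain ⟨_, hYD, _, _, _, _⟩ := h4 N (by omega) Y hpar
  have a5 := h5 N (by omega)
  have a6 := h6 N (by omega)
  rw [pow_zero, mul_one] at a5 a6
  have hN1 : 1 ≤ N := by omega
  have hN0 : (0 : ℝ) < N := by exact_mod_cast hN1
  have hNr : (1 : ℝ) ≤ N := by exact_mod_cast hN1
  obtain ⟨z, hz⟩ : ∃ z : ℕ, z = ⌈(N : ℝ) ^ κ⌉₊ := ⟨_, rfl⟩
  have hNκ1 : 1 ≤ (N : ℝ) ^ κ := Real.one_le_rpow hNr hκ0.le
  have hz1 : (N : ℝ) ^ κ ≤ z := by rw [hz]; exact Nat.le_ceil _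
  have hz2 : (z : ℝ) ≤ 2 * (N : ℝ) ^ κ := by
    have h3 : (z : ℝ) < (N : ℝ) ^ κ + 1 := by rw [hz]; exact Nat.ceil_lt_add_one (by positivity)
    linarith
  have hzpos : 1 ≤ z := by
    have : (1 : ℝ) ≤ z := hNκ1.trans hz1
    exact_mod_cast this
  have hzY : z ≤ Y := by
    have g1 : (z : ℝ) ≤ Y := by
      have g2 : 4 * (N : ℝ) ^ κ ≤ 2 * Y := by
        calc 4 * (N : ℝ) ^ κ ≤ (N : ℝ) ^ (dl t ν / 2) * (N : ℝ) ^ (dl t ν / 2) :=
              mul_le_mul a6 (Real.rpow_le_rpow_of_exponent_le hNr hκ2) (by positivity) (by positivity)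
          _ = (N : ℝ) ^ dl t ν := by rw [← Real.rpow_add hN0]; congr 1; ring
          _ ≤ _ := hpar.high
      linarith
    exact_mod_cast g1
  have b1 := h1 N (by omega) Y z hpar hzpos hz2 (hzY.trans hYD) x hx h hh
  have b2 := h2 N (by omega) Y z hpar hz1 hzY x hx h hh0 hh
  have b3 := h3 N (by omega) z hz1 x hx h hh0 hh
  have e1 : Mn (WE Y t) Y (2 * N / Y) Y x h - Mf P x h = (Mn (WE Y t) Y (2 * N / Y) Y x h - Mn (WE Y t) Y (2 * N / Y) z x h) +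
      (Mn (WE Y t) Y (2 * N / Y) z x h - Mp P z x h) + (Mp P z x h - Mf P x h) := by ring
  rw [e1]
  refine (abs_add_le _ _).trans ?_
  refine (add_le_add (abs_add_le _ _) le_rfl).trans ?_
  have c1 : (N : ℝ) ^ (1 - κ / 2) ≤ (N : ℝ) ^ (1 - θ') := Real.rpow_le_rpow_of_exponent_le hNr (by linarith)
  have c2 : (N : ℝ) ^ (1 - θ) ≤ (N : ℝ) ^ (1 - θ') := Real.rpow_le_rpow_of_exponent_le hNr (by linarith)
  have c3 : (N : ℝ) ^ (1 - κ / 8) ≤ (N : ℝ) ^ (1 - θ') := Real.rpow_le_rpow_of_exponent_le hNr (by linarith)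
  calc _ ≤ 3 * (N : ℝ) ^ (1 - θ') := by linarith
    _ ≤ (N : ℝ) ^ (θ' / 2) * (N : ℝ) ^ (1 - θ') := mul_le_mul_of_nonneg_right a5 (by positivity)
    _ = _ := by rw [← Real.rpow_add hN0]; congr 1; ring

end Pool.Agent.Q148.DS
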