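import Pool.Agent.Q148.DS.A5

set_option autoImplicit false

/-! Divisor correlations with few exceptional shifts: the final form. -/

namespace Pool.Agent.Q148.DS
open Finset Polynomial
open Pool.Agent.H807R2.Dav
open Pool.Agent.TH212.DV
open Pool.Agent.TH212.PS

open Classical in
theorem few_P (t : ℕ) (ht : 1 ≤ t) (P : ℕ → ℝ[X]) (hP : HW t P) (B : ℕ) (ε : ℝ) (hε : 0 < ε) : ∃ θ : ℝ, 0 < θ ∧ ∃ N₀ : ℕ,
    ∀ N : ℕ, N₀ ≤ N → (((Icc (-((B * N : ℕ) : ℤ)) ((B * N : ℕ) : ℤ)).filter (fun h : ℤ => h ≠ 0 ∧ ∃ x : ℕ, x ≤ N ∧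
      (N : ℝ) ^ (1 - θ) < |Dr (t + 2) x h - Mf P x h|)).card : ℝ) ≤ (N : ℝ) ^ (1 - 2 / ((t : ℝ) + 2) + ε) := by
  have ht0 : (0 : ℝ) ≤ t := Nat.cast_nonneg t
  obtain ⟨ν, hν⟩ : ∃ ν : ℝ, ν = min (ε / 8) (1 / (4 * ((t : ℝ) + 2))) := ⟨_, rfl⟩
  have hν0 : 0 < ν := by rw [hν]; positivity
  have hν1 : ν ≤ 1 / (4 * (t + 2)) := by rw [hν]; exact min_le_right _ _
  have hν2 : ν ≤ ε / 8 := by rw [hν]; exact min_le_left _ _
  obtain ⟨θ1, hθ1, n1, h1⟩ := few_Y t ht ν (ε / 4) hν0 hν1 (by positivity)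
  obtain ⟨θ2, hθ2, n2, h2⟩ := main_term t P hP ν hν0 hν1
  obtain ⟨n3, h3⟩ := exists_Y t ν hν1
  obtain ⟨η, hη⟩ : ∃ η : ℝ, η = min θ1 (min θ2 1) := ⟨_, rfl⟩
  have hη0 : 0 < η := by rw [hη]; positivity
  have hη1 : η ≤ θ1 := by rw [hη]; exact min_le_left _ _
  have hη2 : η ≤ θ2 := by rw [hη]; exact (min_le_right _ _).trans (min_le_left _ _)
  have hη4 : η ≤ 1 := by rw [hη]; exact (min_le_right _ _).trans (min_le_right _ _)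
  obtain ⟨n4, h4⟩ := ev_pow 0 (2 * (B + 1)) (η / 2) (by positivity)
  obtain ⟨n5, h5⟩ := ev_pow 0 (((B : ℝ) + 1) ^ (1 + ε)) (ε / 2) (by positivity)
  refine ⟨η / 2, by positivity, n1 + n2 + n3 + n4 + n5 + 2, fun N hN => ?_⟩
  have a4 := h4 N (by omega)
  have a5 := h5 N (by omega)
  rw [pow_zero, mul_one] at a4 a5
  obtain ⟨N', hN'⟩ : ∃ N', N' = (B + 1) * N := ⟨_, rfl⟩
  have hNN : N ≤ N' := by rw [hN']; exact Nat.le_mul_of_pos_left N (by omega)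
  have hN'r : (N' : ℝ) = (B + 1) * N := by rw [hN']; push_cast; ring
  have hN0 : (0 : ℝ) < N := by exact_mod_cast (by omega : 0 < N)
  have hN1 : (1 : ℝ) ≤ N := by exact_mod_cast (by omega : 1 ≤ N)
  have hN'1 : (1 : ℝ) ≤ N' := by exact_mod_cast (by omega : 1 ≤ N')
  have hB0 : (0 : ℝ) ≤ B := Nat.cast_nonneg B
  obtain ⟨Y, hY⟩ := h3 N' (by omega)
  have key := h1 N' (by omega) Y hY
  have hpow : 2 * (N' : ℝ) ^ (1 - η) ≤ (N : ℝ) ^ (1 - η / 2) := by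
    have g1 : (N' : ℝ) ^ (1 - η) ≤ (B + 1) * (N : ℝ) ^ (1 - η) := by
      rw [hN'r, Real.mul_rpow (by positivity) hN0.le]
      apply mul_le_mul_of_nonneg_right _ (by positivity)
      calc ((B : ℝ) + 1) ^ (1 - η) ≤ ((B : ℝ) + 1) ^ (1 : ℝ) := Real.rpow_le_rpow_of_exponent_le (by linarith) (by linarith)
        _ = _ := Real.rpow_one _
    calc 2 * (N' : ℝ) ^ (1 - η) ≤ 2 * (B + 1) * (N : ℝ) ^ (1 - η) := by linarith
      _ ≤ (N : ℝ) ^ (η / 2) * (N : ℝ) ^ (1 - η) := mul_le_mul_of_nonneg_right a4 (by positivity)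
      _ = _ := by rw [← Real.rpow_add hN0]; congr 1; ring
  have hsub : (Icc (-((B * N : ℕ) : ℤ)) ((B * N : ℕ) : ℤ)).filter (fun h : ℤ => h ≠ 0 ∧ ∃ x : ℕ, x ≤ N ∧
      (N : ℝ) ^ (1 - η / 2) < |Dr (t + 2) x h - Mf P x h|) ⊆
      (Icc (-(N' : ℤ)) (N' : ℤ)).filter (fun h : ℤ => ∃ x : ℕ, x ≤ N' ∧ (N' : ℝ) ^ (1 - θ1) <
      |Dr (t + 2) x h - Mn (WE Y t) Y (2 * N' / Y) Y x h|) := by
    intro h hh
    rw [mem_filter, mem_Icc] at hh ⊢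
    obtain ⟨⟨hl, hu⟩, hne, x, hx, hbad⟩ := hh
    have hBN : ((B * N : ℕ) : ℤ) ≤ N' := by
      rw [hN']
      exact_mod_cast Nat.mul_le_mul_right N (by omega)
    refine ⟨⟨by omega, by omega⟩, x, hx.trans hNN, ?_⟩
    by_contra hc
    push Not at hc
    apply absurd hbad
    push Not
    have hhN : |h| ≤ (N' : ℤ) := abs_le.2 ⟨by omega, by omega⟩
    have b2 := h2 N' (by omega) Y hY x (hx.trans hNN) h hne hhN
    have e1 : Dr (t + 2) x h - Mf P x h = (Dr (t + 2) x h - Mn (WE Y t) Y (2 * N' / Y) Y x h) +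
        (Mn (WE Y t) Y (2 * N' / Y) Y x h - Mf P x h) := by ring
    rw [e1]
    refine (abs_add_le _ _).trans ?_
    have c1 : (N' : ℝ) ^ (1 - θ1) ≤ (N' : ℝ) ^ (1 - η) := Real.rpow_le_rpow_of_exponent_le hN'1 (by linarith)
    have c2 : (N' : ℝ) ^ (1 - θ2) ≤ (N' : ℝ) ^ (1 - η) := Real.rpow_le_rpow_of_exponent_le hN'1 (by linarith)
    linarith
  have hcard : (((Icc (-((B * N : ℕ) : ℤ)) ((B * N : ℕ) : ℤ)).filter (fun h : ℤ => h ≠ 0 ∧ ∃ x : ℕ, x ≤ N ∧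
      (N : ℝ) ^ (1 - η / 2) < |Dr (t + 2) x h - Mf P x h|)).card : ℝ) ≤
      ((Icc (-(N' : ℤ)) (N' : ℤ)).filter (fun h : ℤ => ∃ x : ℕ, x ≤ N' ∧ (N' : ℝ) ^ (1 - θ1) <
      |Dr (t + 2) x h - Mn (WE Y t) Y (2 * N' / Y) Y x h|)).card := by exact_mod_cast card_le_card hsub
  refine hcard.trans (key.trans ?_)
  have hexp : 1 - 2 * dl t ν + ε / 4 ≤ 1 - 2 / ((t : ℝ) + 2) + ε / 2 := by
    unfold dl
    have : 2 * (1 / ((t : ℝ) + 2)) = 2 / ((t : ℝ) + 2) := by ring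
    linarith
  have hfr : 2 / ((t : ℝ) + 2) ≤ 1 := by
    rw [div_le_one (by positivity)]
    linarith
  have hfr0 : 0 < 2 / ((t : ℝ) + 2) := by positivity
  calc (N' : ℝ) ^ (1 - 2 * dl t ν + ε / 4) ≤ (N' : ℝ) ^ (1 - 2 / ((t : ℝ) + 2) + ε / 2) :=
        Real.rpow_le_rpow_of_exponent_le hN'1 hexp
    _ = ((B : ℝ) + 1) ^ (1 - 2 / ((t : ℝ) + 2) + ε / 2) * (N : ℝ) ^ (1 - 2 / ((t : ℝ) + 2) + ε / 2) := by
        rw [hN'r, Real.mul_rpow (by positivity) hN0.le]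
    _ ≤ (N : ℝ) ^ (ε / 2) * (N : ℝ) ^ (1 - 2 / ((t : ℝ) + 2) + ε / 2) := by
        apply mul_le_mul_of_nonneg_right _ (by positivity)
        refine le_trans (Real.rpow_le_rpow_of_exponent_le (by linarith) (by linarith)) a5
    _ = _ := by rw [← Real.rpow_add hN0]; congr 1; ring

open Classical in
theorem few_final (t : ℕ) (ht : 1 ≤ t) (P : ℕ → ℝ[X]) (hP : HW t P) (B : ℕ) (ε : ℝ) (hε : 0 < ε) : ∃ θ : ℝ, 0 < θ ∧ θ ≤ 1 ∧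
    ∀ η : ℝ, 0 < η → η ≤ θ → ∃ N₀ : ℕ, ∀ N : ℕ, N₀ ≤ N →
    (((Icc (-((B * N : ℕ) : ℤ)) ((B * N : ℕ) : ℤ)).filter (fun h : ℤ => h ≠ 0 ∧ ¬ GoodP t N P θ η h)).card : ℝ) ≤
      (N : ℝ) ^ (1 - 2 / ((t : ℝ) + 2) + ε) := by
  obtain ⟨θ', hθ', n1, h1⟩ := few_P t ht P hP B ε hε
  obtain ⟨θ, hθ⟩ : ∃ θ : ℝ, θ = min θ' 1 := ⟨_, rfl⟩
  have hθ0 : 0 < θ := by rw [hθ]; positivity
  have hθ1 : θ ≤ θ' := by rw [hθ]; exact min_le_left _ _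
  have hθ2 : θ ≤ 1 := by rw [hθ]; exact min_le_right _ _
  refine ⟨θ, hθ0, hθ2, fun η hη hηθ => ?_⟩
  obtain ⟨n2, h2⟩ := small_shift t P hP η hη (hηθ.trans hθ2)
  obtain ⟨n3, h3⟩ := ev_pow 0 2 (η / 8) (by positivity)
  refine ⟨n1 + n2 + n3 + 1, fun N hN => ?_⟩
  have a3 := h3 N (by omega)
  rw [pow_zero, mul_one] at a3
  have hN0 : (0 : ℝ) < N := by exact_mod_cast (by omega : 0 < N)
  have hN1 : (1 : ℝ) ≤ N := by exact_mod_cast (by omega : 1 ≤ N)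
  have key := h1 N (by omega)
  have hsub : (Icc (-((B * N : ℕ) : ℤ)) ((B * N : ℕ) : ℤ)).filter (fun h : ℤ => h ≠ 0 ∧ ¬ GoodP t N P θ η h) ⊆
      (Icc (-((B * N : ℕ) : ℤ)) ((B * N : ℕ) : ℤ)).filter (fun h : ℤ => h ≠ 0 ∧ ∃ x : ℕ, x ≤ N ∧
      (N : ℝ) ^ (1 - θ') < |Dr (t + 2) x h - Mf P x h|) := by
    intro h hh
    rw [mem_filter] at hh ⊢
    refine ⟨hh.1, hh.2.1, ?_⟩
    by_contra hc
    push Not at hc
    apply hh.2.2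
    intro x hx
    have b1 := hc x hx
    have c1 : (N : ℝ) ^ (1 - θ') ≤ (N : ℝ) ^ (1 - θ) := Real.rpow_le_rpow_of_exponent_le hN1 (by linarith)
    refine ⟨b1.trans c1, fun hs => ?_⟩
    have b2 := h2 N (by omega) h hh.2.1 hs x hx
    have c2 : (N : ℝ) ^ (1 - θ') ≤ (N : ℝ) ^ (1 - η / 4) := Real.rpow_le_rpow_of_exponent_le hN1 (by linarith)
    calc |Dr (t + 2) x h - x * (Th t P h).eval (Real.log x)| =
          |(Dr (t + 2) x h - Mf P x h) + (Mf P x h - x * (Th t P h).eval (Real.log x))| := by congr 1; ring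
      _ ≤ (N : ℝ) ^ (1 - η / 4) + (N : ℝ) ^ (1 - η / 4) := (abs_add_le _ _).trans (add_le_add (b1.trans c2) b2)
      _ = 2 * (N : ℝ) ^ (1 - η / 4) := by ring
      _ ≤ (N : ℝ) ^ (η / 8) * (N : ℝ) ^ (1 - η / 4) := mul_le_mul_of_nonneg_right a3 (by positivity)
      _ = _ := by rw [← Real.rpow_add hN0]; congr 1; ring
  exact le_trans (by exact_mod_cast card_le_card hsub) key

end Pool.Agent.Q148.DS
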